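import Pool.Agent.Helper85.KL.Kernel

/-!
# Project FQ (MP_0f6f3f_an): faces and bi-localisation (sections 5 and F), all nodes

`nr f i C x y`: the coordinates different from `i` agree up to `C`; `nf f C x y`: all coordinates agree up to `C`.
`face`: elements whose gaps outside `F` are bounded are seen on the same face. `exists_biloc`: rows and columns
of `p` at regular elements are concentrated in bounded boxes around `r' a`, `r b`; regular elements go to regular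
ones, `r`, `r'` are coarsely Lipschitz and coarse inverses.
-/

set_option autoImplicit false

namespace Pool.Agent.Helper85.KL

open Set

variable {A B I : Type}

/-- The coordinates different from `i` agree up to `C`. -/
def nr (f : A → I → ℝ) (i : I) (C : ℝ) (x y : A) : Prop := ∀ v, v ≠ i → |f x v - f y v| ≤ C

/-- All coordinates agree up to `C`. -/
def nf (f : A → I → ℝ) (C : ℝ) (x y : A) : Prop := ∀ v, |f x v - f y v| ≤ C

theorem near_nr (f : A → I → ℝ) (i : I) : Near (nr f i) where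
  refl C x hC v _ := by simpa using hC
  symm C x y h v hv := by rw [abs_sub_comm]; exact h v hv
  tri C D x y z h h' v hv := by
    have h1 := h v hv
    have h2 := h' v hv
    have h3 := abs_sub_le (f x v) (f y v) (f z v)
    linarith
  mono C D x y hCD h v hv := le_trans (h v hv) hCD

theorem near_nf (f : A → I → ℝ) : Near (nf f) where
  refl C x hC v := by simpa using hC
  symm C x y h v := by rw [abs_sub_comm]; exact h v
  tri C D x y z h h' v := by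
    have h1 := h v
    have h2 := h' v
    have h3 := abs_sub_le (f x v) (f y v) (f z v)
    linarith
  mono C D x y hCD h v := le_trans (h v) hCD

theorem nr_le {f : A → I → ℝ} {i : I} {C : ℝ} {x y : A} (h : nr f i C x y) {v : I} (hv : v ≠ i) {K : ℝ}
    (hy : f y v ≤ K) : f x v ≤ K + C := by
  have h1 := abs_le.1 (h v hv)
  linarith [h1.2]

/-- The data of all nodes. -/
structure Nodes (p : A → B → ℝ) (a1 : A → I → ℝ) (b1 : B → I → ℝ) (θ : I → A → Set B → ℝ) (q : I → A → B)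
    (q' : I → B → A) : Prop where
  ker : ∀ i, Ker p (nr a1 i) (fun a => a1 a i) (nr b1 i) (fun b => b1 b i) (θ i) (q i) (q' i)
  /-- TIGHT for the one gap elements of `B`. -/
  tight : ∀ i, ∀ ε > 0, ∀ C : ℝ, ∃ C' : ℝ, ∀ b, (∀ j, j ≠ i → b1 b j ≤ C) →
    mass (fun a => p a b) {a | ∃ v, v ≠ i ∧ C' < a1 a v} ≤ ε
  /-- elements with a prescribed gap. -/
  ext : ∀ i, ∃ C₀ : ℝ, 0 ≤ C₀ ∧ ∀ b, ∀ L : ℝ, 0 ≤ L → ∃ b', nr b1 i C₀ b b' ∧ L ≤ b1 b' i ∧ b1 b' i ≤ L + C₀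

/-- **Faces.** -/
theorem face [DecidableEq I] {p : A → B → ℝ} {a1 : A → I → ℝ} {b1 : B → I → ℝ} {θ : I → A → Set B → ℝ}
    {q : I → A → B} {q' : I → B → A} {θ' : I → B → Set A → ℝ} (hp : DS p) (h : Nodes p a1 b1 θ q q')
    (hk' : ∀ i, Ker (fun b a => p a b) (nr b1 i) (fun b => b1 b i) (nr a1 i) (fun a => a1 a i) (θ' i) (q' i) (q i))
    (F : Finset I) (hF : F.Nonempty) :
    ∀ C : ℝ, ∀ ε > 0, ∃ C' : ℝ, ∀ b, (∀ j, j ∉ F → b1 b j ≤ C) →
      mass (fun a => p a b) {a | ∃ v, v ∉ F ∧ C' < a1 a v} ≤ ε := by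
  classical
  induction hF using Finset.Nonempty.cons_induction with
  | singleton i =>
    intro C ε hε
    obtain ⟨C', h1⟩ := h.tight i ε hε C
    refine ⟨C', fun b hb => ?_⟩
    have h2 := h1 b fun j hj => hb j (by simpa using hj)
    simpa using h2
  | cons j F' hj hF' ih =>
    intro C ε hε
    obtain ⟨C₀, hC₀, hext⟩ := h.ext j
    obtain ⟨L₁, C₁, hloc⟩ := (h.ker j).loc ε hε
    obtain ⟨L₂, C₂, hloc2⟩ := (h.ker j).loc (1 / 4) (by norm_num)
    obtain ⟨D, hD⟩ := (hk' j).lip C₀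
    set L := max (max L₁ L₂) 0 with hL
    have hL1 : L₁ ≤ L := le_trans (le_max_left _ _) (le_max_left _ _)
    have hL2 : L₂ ≤ L := le_trans (le_max_right _ _) (le_max_left _ _)
    have hL0 : 0 ≤ L := le_max_right _ _
    obtain ⟨C₃, h3⟩ := ih (max C L) ε hε
    obtain ⟨C₄, h4⟩ := ih (max (C + C₀) (L + C₀)) (1 / 4) (by norm_num)
    refine ⟨max C₃ (C₄ + C₂ + D + C₁), fun b hb => ?_⟩
    by_cases hbj : b1 b j ≤ L
    · refine le_trans ((hp.col b).mass_mono ?_) (h3 b fun i hi => ?_)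
      · rintro a ⟨v, hv, hav⟩
        refine ⟨v, fun hc => hv (Finset.mem_cons.2 (Or.inr hc)), lt_of_le_of_lt (le_max_left _ _) hav⟩
      · by_cases hij : i = j
        · rw [hij]
          exact le_trans hbj (le_max_right _ _)
        · exact le_trans (hb i fun hc => (Finset.mem_cons.1 hc).elim hij hi) (le_max_left _ _)
    · push Not at hbj
      obtain ⟨b', h5, h6, h7⟩ := hext b L hL0
      have h8 : ∀ i, i ∉ F' → b1 b' i ≤ max (C + C₀) (L + C₀) := by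
        intro i hi
        by_cases hij : i = j
        · rw [hij]
          exact le_trans h7 (le_max_right _ _)
        · refine le_trans (nr_le ((near_nr b1 j).symm _ _ _ h5) hij
            (hb i fun hc => (Finset.mem_cons.1 hc).elim hij hi)) (le_max_left _ _)
      obtain ⟨a₀, h9, h10⟩ := (hp.col b').exists_both (S := {a | ∃ v, v ∉ F' ∧ C₄ < a1 a v})
        (T := {a | ¬ nr a1 j C₂ a (q' j b')}) (by linarith [h4 b' h8, hloc2 b' (le_trans hL2 h6)])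
      simp only [mem_ofPred_eq, not_exists, not_and, not_lt, not_not] at h9 h10
      refine le_trans ((hp.col b).mass_mono ?_) (hloc b (le_trans hL1 hbj.le))
      rintro a ⟨v, hv, hav⟩ hc
      have hvj : v ≠ j := fun hc => hv (Finset.mem_cons.2 (Or.inl hc))
      have hvF : v ∉ F' := fun hc => hv (Finset.mem_cons.2 (Or.inr hc))
      have h11 : a1 (q' j b') v ≤ C₄ + C₂ := nr_le ((near_nr a1 j).symm _ _ _ h10) hvj (h9 v hvF)
      have h12 : a1 (q' j b) v ≤ C₄ + C₂ + D := nr_le (hD b b' h5) hvj h11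
      have h13 : a1 a v ≤ C₄ + C₂ + D + C₁ := nr_le hc hvj h12
      exact absurd (lt_of_le_of_lt (le_max_right _ _) hav) (not_lt.2 h13)

/-- Bi-localisation, one direction. -/
structure BiLoc (p : A → B → ℝ) (a1 : A → I → ℝ) (b1 : B → I → ℝ) (r : B → A) : Prop where
  loc : ∀ ε > 0, ∃ R C : ℝ, ∀ b, (∀ i, R ≤ b1 b i) → mass (fun a => p a b) {a | ¬ nf a1 C a (r b)} ≤ ε
  reg : ∀ R : ℝ, ∃ R' : ℝ, ∀ b, (∀ i, R' ≤ b1 b i) → ∀ i, R ≤ a1 (r b) i
  lip : ∀ C : ℝ, ∃ R D : ℝ, ∀ b b', (∀ i, R ≤ b1 b i) → (∀ i, R ≤ b1 b' i) → nf b1 C b b' →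
    nf a1 D (r b) (r b')

theorem nf_of {f : A → I → ℝ} {i₁ i₂ : I} (hi : i₁ ≠ i₂) {C : ℝ} {x y : A} (h₁ : nr f i₁ C x y)
    (h₂ : nr f i₂ C x y) : nf f C x y := by
  intro v
  by_cases hv : v = i₁
  · rw [hv]
    exact h₂ i₁ hi
  · exact h₁ v hv

theorem nr_of {f : A → I → ℝ} (i : I) {C : ℝ} {x y : A} (h : nf f C x y) : nr f i C x y := fun v _ => h v

/-- Full localisation around the coordinates of the `q'`. -/
theorem full {p : A → B → ℝ} {a1 : A → I → ℝ} {b1 : B → I → ℝ} {θ : I → A → Set B → ℝ}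
    {q : I → A → B} {q' : I → B → A} (hp : DS p)
    (hk : ∀ i, Ker p (nr a1 i) (fun a => a1 a i) (nr b1 i) (fun b => b1 b i) (θ i) (q i) (q' i)) (i₁ i₂ : I) :
    ∀ ε > 0, ∃ R C : ℝ, ∀ b, (∀ i, R ≤ b1 b i) →
      mass (fun a => p a b) {a | ¬ (nr a1 i₁ C a (q' i₁ b) ∧ nr a1 i₂ C a (q' i₂ b))} ≤ ε := by
  intro ε hε
  obtain ⟨L₁, C₁, h1⟩ := (hk i₁).loc (ε / 2) (by positivity)
  obtain ⟨L₂, C₂, h2⟩ := (hk i₂).loc (ε / 2) (by positivity)
  refine ⟨max L₁ L₂, max C₁ C₂, fun b hb => ?_⟩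
  have h3 := h1 b (le_trans (le_max_left _ _) (hb i₁))
  have h4 := h2 b (le_trans (le_max_right _ _) (hb i₂))
  have h5 := (hp.col b).mass_union {a | ¬ nr a1 i₁ C₁ a (q' i₁ b)} {a | ¬ nr a1 i₂ C₂ a (q' i₂ b)}
  refine le_trans ((hp.col b).mass_mono fun a ha => ?_) (by linarith : _ ≤ ε)
  by_contra hc
  simp only [mem_union, mem_ofPred_eq, not_or, not_not] at hc
  exact ha ⟨(near_nr a1 i₁).mono _ _ _ _ (le_max_left _ _) hc.1, (near_nr a1 i₂).mono _ _ _ _ (le_max_right _ _) hc.2⟩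

/-- Large gaps go to large gaps (for the maps of one node). -/
theorem gap_up [Fintype I] [DecidableEq I] {p : A → B → ℝ} {a1 : A → I → ℝ} {b1 : B → I → ℝ}
    {θ : I → A → Set B → ℝ} {θ' : I → B → Set A → ℝ} {q : I → A → B} {q' : I → B → A} (hp : DS p)
    (h : Nodes p a1 b1 θ q q') (h' : Nodes (fun b a => p a b) b1 a1 θ' q' q) {i v : I} (hv : v ≠ i) (R : ℝ) :
    ∃ R' : ℝ, ∀ b, R' ≤ b1 b v → R ≤ a1 (q' i b) v := by
  have hp' : DS fun b a => p a b := ⟨hp.col, hp.row⟩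
  obtain ⟨C₀, hC₀, hext⟩ := h'.ext i
  obtain ⟨L₁, C₁, hloc⟩ := (h'.ker i).loc (1 / 4) (by norm_num)
  obtain ⟨D, hD⟩ := (h.ker i).lip C₀
  obtain ⟨C₂, hinv⟩ := (h'.ker i).inv
  have hF : (Finset.univ.erase v : Finset I).Nonempty := ⟨i, by simpa using hv.symm⟩
  obtain ⟨C₃, hface⟩ := face hp' h' h.ker (Finset.univ.erase v) hF (R + C₀) (1 / 4) (by norm_num)
  refine ⟨C₃ + C₁ + D + C₂ + 1, fun b hb => ?_⟩
  by_contra hc
  push Not at hc
  obtain ⟨a, h1, h2, h3⟩ := hext (q' i b) (max L₁ 0) (le_max_right _ _)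
  have h4 : a1 a v ≤ R + C₀ := nr_le ((near_nr a1 i).symm _ _ _ h1) hv hc.le
  obtain ⟨b', h5, h6⟩ := (hp.row a).exists_both (S := {b' | ∃ w, w ∉ Finset.univ.erase v ∧ C₃ < b1 b' w})
    (T := {b' | ¬ nr b1 i C₁ b' (q i a)}) (by
      have h7 := hface a fun j hj => by
        have h8 : j = v := by simpa using hj
        rw [h8]
        exact h4
      have h8 := hloc a (le_trans (le_max_left _ _) h2)
      linarith)
  simp only [mem_ofPred_eq, not_exists, not_and, not_lt, not_not] at h5 h6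
  have h7 : b1 b' v ≤ C₃ := h5 v (by simp)
  have h8 : b1 (q i a) v ≤ C₃ + C₁ := nr_le ((near_nr b1 i).symm _ _ _ h6) hv h7
  have h9 : b1 (q i (q' i b)) v ≤ C₃ + C₁ + D := nr_le (hD _ _ h1) hv h8
  have h10 : b1 b v ≤ C₃ + C₁ + D + C₂ := nr_le (hinv b) hv h9
  linarith

/-- Bi-localisation, one direction, with the property which defines `r`. -/
theorem exists_r [Fintype I] [DecidableEq I] {p : A → B → ℝ} {a1 : A → I → ℝ} {b1 : B → I → ℝ}
    {θ : I → A → Set B → ℝ} {θ' : I → B → Set A → ℝ} {q : I → A → B} {q' : I → B → A} (hp : DS p)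
    (h : Nodes p a1 b1 θ q q') (h' : Nodes (fun b a => p a b) b1 a1 θ' q' q) {i₁ i₂ : I} (hi : i₁ ≠ i₂) :
    ∃ r : B → A, BiLoc p a1 b1 r ∧ ∃ R C : ℝ, ∀ b, (∀ i, R ≤ b1 b i) →
      nr a1 i₁ C (r b) (q' i₁ b) ∧ nr a1 i₂ C (r b) (q' i₂ b) := by
  classical
  obtain ⟨R₀, C₀, h0⟩ := full hp h.ker i₁ i₂ (1 / 2) (by norm_num)
  have h1 : ∀ b, ∃ a, (∀ i, R₀ ≤ b1 b i) → nr a1 i₁ C₀ a (q' i₁ b) ∧ nr a1 i₂ C₀ a (q' i₂ b) := by
    intro b
    by_cases hb : ∀ i, R₀ ≤ b1 b i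
    · obtain ⟨a, ha, -⟩ := (hp.col b).exists_both
        (S := {a | ¬ (nr a1 i₁ C₀ a (q' i₁ b) ∧ nr a1 i₂ C₀ a (q' i₂ b))}) (T := ∅) (by
          rw [PW.mass_empty]
          linarith [h0 b hb])
      exact ⟨a, fun _ => not_not.1 ha⟩
    · exact ⟨q' i₁ b, fun hc => absurd hc hb⟩
  choose r hr using h1
  refine ⟨r, ⟨fun ε hε => ?_, fun R => ?_, fun C => ?_⟩, R₀, C₀, hr⟩
  · obtain ⟨R₁, C₁, h2⟩ := full hp h.ker i₁ i₂ ε hε
    refine ⟨max R₀ R₁, C₁ + C₀, fun b hb => ?_⟩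
    have hb0 : ∀ i, R₀ ≤ b1 b i := fun i => le_trans (le_max_left _ _) (hb i)
    refine le_trans ((hp.col b).mass_mono ?_) (h2 b fun i => le_trans (le_max_right _ _) (hb i))
    rintro a ha ⟨hc1, hc2⟩
    refine ha (nf_of hi ?_ ?_)
    · exact (near_nr a1 i₁).tri _ _ _ _ _ hc1 ((near_nr a1 i₁).symm _ _ _ (hr b hb0).1)
    · exact (near_nr a1 i₂).tri _ _ _ _ _ hc2 ((near_nr a1 i₂).symm _ _ _ (hr b hb0).2)
  · -- regular to regular
    have h2 : ∀ v, ∃ R' : ℝ, ∀ b, (∀ i, R₀ ≤ b1 b i) → R' ≤ b1 b v → R ≤ a1 (r b) v := by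
      intro v
      by_cases hv : v = i₁
      · obtain ⟨R', h3⟩ := gap_up hp h h' (i := i₂) (v := v) (by rw [hv]; exact hi) (R + C₀)
        refine ⟨R', fun b hb hb' => ?_⟩
        have h4 := h3 b hb'
        have h5 := abs_le.1 ((hr b hb).2 v (by rw [hv]; exact hi))
        linarith [h5.1]
      · obtain ⟨R', h3⟩ := gap_up hp h h' (i := i₁) (v := v) hv (R + C₀)
        refine ⟨R', fun b hb hb' => ?_⟩
        have h4 := h3 b hb'
        have h5 := abs_le.1 ((hr b hb).1 v hv)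
        linarith [h5.1]
    choose R' hR' using h2
    refine ⟨max R₀ (∑ v, |R' v|), fun b hb i => hR' i b (fun j => le_trans (le_max_left _ _) (hb j)) ?_⟩
    refine le_trans (le_trans (le_abs_self _) ?_) (le_trans (le_max_right _ _) (hb i))
    exact Finset.single_le_sum (f := fun v => |R' v|) (fun v _ => abs_nonneg _) (Finset.mem_univ i)
  · obtain ⟨D₁, hD₁⟩ := (h'.ker i₁).lip C
    obtain ⟨D₂, hD₂⟩ := (h'.ker i₂).lip C
    refine ⟨R₀, C₀ + max D₁ D₂ + C₀, fun b b' hb hb' hbb => nf_of hi ?_ ?_⟩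
    · have h3 := (near_nr a1 i₁).mono _ _ _ _ (le_max_left D₁ D₂) (hD₁ b b' (nr_of i₁ hbb))
      exact (near_nr a1 i₁).tri _ _ _ _ _ ((near_nr a1 i₁).tri _ _ _ _ _ (hr b hb).1 h3)
        ((near_nr a1 i₁).symm _ _ _ (hr b' hb').1)
    · have h3 := (near_nr a1 i₂).mono _ _ _ _ (le_max_right D₁ D₂) (hD₂ b b' (nr_of i₂ hbb))
      exact (near_nr a1 i₂).tri _ _ _ _ _ ((near_nr a1 i₂).tri _ _ _ _ _ (hr b hb).2 h3)
        ((near_nr a1 i₂).symm _ _ _ (hr b' hb').2)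

/-- **Bi-localisation** (section 5). -/
theorem exists_biloc [Fintype I] [DecidableEq I] [Nontrivial I] {p : A → B → ℝ} {a1 : A → I → ℝ} {b1 : B → I → ℝ}
    {θ : I → A → Set B → ℝ} {θ' : I → B → Set A → ℝ} {q : I → A → B} {q' : I → B → A} (hp : DS p)
    (h : Nodes p a1 b1 θ q q') (h' : Nodes (fun b a => p a b) b1 a1 θ' q' q) :
    ∃ (r : B → A) (r' : A → B), BiLoc p a1 b1 r ∧ BiLoc (fun b a => p a b) b1 a1 r' ∧
      (∃ R C : ℝ, ∀ a, (∀ i, R ≤ a1 a i) → nf a1 C a (r (r' a))) ∧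
      ∃ R C : ℝ, ∀ b, (∀ i, R ≤ b1 b i) → nf b1 C b (r' (r b)) := by
  obtain ⟨i₁, i₂, hi⟩ := exists_pair_ne I
  have hp' : DS fun b a => p a b := ⟨hp.col, hp.row⟩
  obtain ⟨r, hr, R₁, C₁, h1⟩ := exists_r hp h h' hi
  obtain ⟨r', hr', R₂, C₂, h2⟩ := exists_r hp' h' h hi
  refine ⟨r, r', hr, hr', ?_, ?_⟩
  · obtain ⟨R₃, h3⟩ := hr'.reg R₁
    have key : ∀ i, ∃ C : ℝ, ∀ a, nr a1 i C₁ (r (r' a)) (q' i (r' a)) → nr b1 i C₂ (r' a) (q i a) →
        nr a1 i C a (r (r' a)) := by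
      intro i
      obtain ⟨D, hD⟩ := (h'.ker i).lip C₂
      obtain ⟨C, hC⟩ := (h.ker i).inv
      refine ⟨C + (D + C₁), fun a h4 h5 => ?_⟩
      refine (near_nr a1 i).tri _ _ _ _ _ (hC a) ((near_nr a1 i).symm _ _ _ ?_)
      have h6 := (near_nr a1 i).tri _ _ _ _ _ h4 (hD _ _ h5)
      rwa [add_comm] at h6
    obtain ⟨K₁, hK₁⟩ := key i₁
    obtain ⟨K₂, hK₂⟩ := key i₂
    refine ⟨max R₃ R₂, max K₁ K₂, fun a ha => ?_⟩
    have h4 := h1 (r' a) (h3 a fun i => le_trans (le_max_left _ _) (ha i))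
    have h5 := h2 a fun i => le_trans (le_max_right _ _) (ha i)
    exact nf_of hi ((near_nr a1 i₁).mono _ _ _ _ (le_max_left _ _) (hK₁ a h4.1 h5.1))
      ((near_nr a1 i₂).mono _ _ _ _ (le_max_right _ _) (hK₂ a h4.2 h5.2))
  · obtain ⟨R₃, h3⟩ := hr.reg R₂
    have key : ∀ i, ∃ C : ℝ, ∀ b, nr b1 i C₂ (r' (r b)) (q i (r b)) → nr a1 i C₁ (r b) (q' i b) →
        nr b1 i C b (r' (r b)) := by
      intro i
      obtain ⟨D, hD⟩ := (h.ker i).lip C₁
      obtain ⟨C, hC⟩ := (h'.ker i).inv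
      refine ⟨C + (D + C₂), fun b h4 h5 => ?_⟩
      refine (near_nr b1 i).tri _ _ _ _ _ (hC b) ((near_nr b1 i).symm _ _ _ ?_)
      have h6 := (near_nr b1 i).tri _ _ _ _ _ h4 (hD _ _ h5)
      rwa [add_comm] at h6
    obtain ⟨K₁, hK₁⟩ := key i₁
    obtain ⟨K₂, hK₂⟩ := key i₂
    refine ⟨max R₃ R₁, max K₁ K₂, fun b hb => ?_⟩
    have h4 := h2 (r b) (h3 b fun i => le_trans (le_max_left _ _) (hb i))
    have h5 := h1 b fun i => le_trans (le_max_right _ _) (hb i)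
    exact nf_of hi ((near_nr b1 i₁).mono _ _ _ _ (le_max_left _ _) (hK₁ b h4.1 h5.1))
      ((near_nr b1 i₂).mono _ _ _ _ (le_max_right _ _) (hK₂ b h4.2 h5.2))

end Pool.Agent.Helper85.KL
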