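import Pool.Agent.Helper85.KL.Mass

/-!
# Project FQ (MP_0f6f3f_an): the kernel lemma (section 4 of helper35's PVM note), one pair of nodes

`Near n`: a scale of coarse relations. `Sand p nA gA nB gB θ`: the sandwich data of one node: `θ a` is a
finitely additive probability on `B`, with `ins` (insertion), `per` (perturbation) and `rep` (the
laws `θ a` are limits of averages of the rows `p a'`, `a'` near `a` and far out in the node direction).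
`exists_ker`: for two exchanged sandwiches the laws are concentrated around one point (`conc`), the maps `q`, `q'` are
coarse inverses (`inv`), coarsely Lipschitz (`lip`), and the columns of `p` are concentrated (`loc`).
-/

set_option autoImplicit false

namespace Pool.Agent.Helper85.KL

open Set

/-- A scale of coarse relations. -/
structure Near {A : Type} (n : ℝ → A → A → Prop) : Prop where
  refl : ∀ C x, 0 ≤ C → n C x x
  symm : ∀ C x y, n C x y → n C y x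
  tri : ∀ C D x y z, n C x y → n D y z → n (C + D) x z
  mono : ∀ C D x y, C ≤ D → n C x y → n D x y

variable {A B : Type}

/-- Sandwich data of one node. -/
structure Sand (p : A → B → ℝ) (nA : ℝ → A → A → Prop) (gA : A → ℝ) (nB : ℝ → B → B → Prop) (gB : B → ℝ)
    (θ : A → Set B → ℝ) : Prop where
  prob : ∀ a, FProb (θ a)
  ins : ∀ ε > 0, ∃ L C : ℝ, ∀ b, L ≤ gB b → ∑' a, p a b * θ a {b' | ¬ nB C b b'} ≤ ε
  per : ∀ ε > 0, ∀ C : ℝ, ∃ η > 0, ∃ K : ℝ, ∀ a a' (S : Set B), nA C a a' →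
    θ a {b | ∃ b' ∈ S, nB K b b'} ≤ η → θ a' S ≤ ε
  rep : ∀ ε > 0, ∃ C : ℝ, ∀ (a : A) (L δ : ℝ) (S : Set B),
    (∀ a', nA C a a' → L ≤ gA a' → mass (p a') S ≤ δ) → θ a S ≤ δ + ε

/-- Doubly stochastic. -/
structure DS (p : A → B → ℝ) : Prop where
  row : ∀ a, PW (p a)
  col : ∀ b, PW fun a => p a b

/-- Half of the kernel lemma: a point `b₀` (independent of `ε`) around which `θ a` is concentrated, and `θ' b₀` is
concentrated around `a`. -/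
theorem exists_point {p : A → B → ℝ} {nA : ℝ → A → A → Prop} {gA : A → ℝ} {nB : ℝ → B → B → Prop} {gB : B → ℝ}
    {θ : A → Set B → ℝ} {θ' : B → Set A → ℝ} (hp : DS p) (hA : Near nA) (hB : Near nB)
    (h : Sand p nA gA nB gB θ) (h' : Sand (fun b a => p a b) nB gB nA gA θ') :
    ∃ C₀ : ℝ, (∀ a, ∃ b₀, θ' b₀ {a' | ¬ nA C₀ a a'} ≤ 1 / 8) ∧
      ∀ ε > 0, ∃ D : ℝ, ∀ a b₀, θ' b₀ {a' | ¬ nA C₀ a a'} ≤ 1 / 8 → θ a {b | ¬ nB D b₀ b} ≤ ε := by
  obtain ⟨L₁, C₁, h1⟩ := h'.ins (1 / 64) (by norm_num)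
  obtain ⟨C₂, h2⟩ := h.rep (1 / 16) (by norm_num)
  obtain ⟨C₃, h3⟩ := h'.rep (1 / 16) (by norm_num)
  refine ⟨C₁ + C₂, fun a => ?_, fun ε hε => ?_⟩
  · -- existence of a point
    have h4 : θ a {b | 1 / 8 < θ' b {a' | ¬ nA (C₁ + C₂) a a'}} ≤ 1 / 8 + 1 / 16 := by
      refine h2 a L₁ (1 / 8) _ fun a' ha' hL => ?_
      have h5 := (hp.row a').markov (f := fun b => θ' b {a'' | ¬ nA C₁ a' a''}) (fun b => (h'.prob b).nn _)
        (fun b => (h'.prob b).le_one _) (η := 1 / 8) (e := 1 / 64) (by norm_num) (h1 a' hL)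
      refine le_trans ((hp.row a').mass_mono fun b hb => ?_) (le_trans h5 (by norm_num))
      refine lt_of_lt_of_le hb ((h'.prob b).mono _ _ fun a'' ha'' => ?_)
      refine fun hc => ha'' ?_
      have h6 := hA.tri _ _ _ _ _ ha' hc
      rwa [add_comm] at h6
    obtain ⟨b₀, hb₀⟩ := (h.prob a).exists_not (S := {b | 1 / 8 < θ' b {a' | ¬ nA (C₁ + C₂) a a'}}) (by linarith)
    exact ⟨b₀, not_lt.1 hb₀⟩
  · obtain ⟨η, hη, K, h4⟩ := h.per ε hε (C₁ + C₂)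
    obtain ⟨L, C, h5⟩ := h.ins (η / 4) (by positivity)
    refine ⟨C + K + C₃, fun a b₀ hb₀ => ?_⟩
    -- a good element `b₁` far out
    have h6 : ∃ b₁, nB C₃ b₀ b₁ ∧ L ≤ gB b₁ ∧ 3 / 4 < mass (fun a' => p a' b₁) {a' | nA (C₁ + C₂) a a'} := by
      by_contra hc
      push Not at hc
      have h7 := h3 b₀ L (3 / 4) {a' | nA (C₁ + C₂) a a'} fun b₁ hb₁ hL => hc b₁ hb₁ hL
      have h8 := (h'.prob b₀).compl_ge {a' | nA (C₁ + C₂) a a'}
      have h9 : ({a' | nA (C₁ + C₂) a a'} : Set A)ᶜ = {a' | ¬ nA (C₁ + C₂) a a'} := rfl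
      rw [h9] at h8
      linarith
    obtain ⟨b₁, hb₁, hL, hm⟩ := h6
    have h7 := (hp.col b₁).markov (f := fun a' => θ a' {b' | ¬ nB C b₁ b'}) (fun a' => (h.prob a').nn _)
      (fun a' => (h.prob a').le_one _) hη (h5 b₁ hL)
    have h8 : η / 4 / η = 1 / 4 := by field_simp
    rw [h8] at h7
    obtain ⟨a₁, ha₁, ha₂⟩ := (hp.col b₁).exists_not (S := {a' | nA (C₁ + C₂) a a'})
      (T := {a' | η < θ a' {b' | ¬ nB C b₁ b'}}) (by linarith)
    refine h4 a₁ a _ (hA.symm _ _ _ ha₁) (le_trans ((h.prob a₁).mono _ _ ?_) (not_lt.1 ha₂))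
    rintro b ⟨b', hb', hK⟩ hc
    refine hb' ?_
    have h9 := hB.tri _ _ _ _ _ (hB.tri _ _ _ _ _ hb₁ hc) hK
    have h10 : C₃ + C + K = C + K + C₃ := by ring
    rwa [h10] at h9

/-- The conclusions of the kernel lemma. -/
structure Ker (p : A → B → ℝ) (nA : ℝ → A → A → Prop) (gA : A → ℝ) (nB : ℝ → B → B → Prop) (gB : B → ℝ)
    (θ : A → Set B → ℝ) (q : A → B) (q' : B → A) : Prop where
  conc : ∀ ε > 0, ∃ D : ℝ, ∀ a, θ a {b | ¬ nB D (q a) b} ≤ ε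
  inv : ∃ C : ℝ, ∀ a, nA C a (q' (q a))
  lip : ∀ C : ℝ, ∃ D : ℝ, ∀ a a', nA C a a' → nB D (q a) (q a')
  loc : ∀ ε > 0, ∃ L C : ℝ, ∀ b, L ≤ gB b → mass (fun a => p a b) {a | ¬ nA C a (q' b)} ≤ ε

theorem exists_ker {p : A → B → ℝ} {nA : ℝ → A → A → Prop} {gA : A → ℝ} {nB : ℝ → B → B → Prop} {gB : B → ℝ}
    {θ : A → Set B → ℝ} {θ' : B → Set A → ℝ} (hp : DS p) (hA : Near nA) (hB : Near nB)
    (h : Sand p nA gA nB gB θ) (h' : Sand (fun b a => p a b) nB gB nA gA θ') :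
    ∃ (q : A → B) (q' : B → A), Ker p nA gA nB gB θ q q' ∧ Ker (fun b a => p a b) nB gB nA gA θ' q' q := by
  have hp' : DS fun b a => p a b := ⟨hp.col, hp.row⟩
  obtain ⟨C₀, h1, h2⟩ := exists_point hp hA hB h h'
  obtain ⟨C₀', h1', h2'⟩ := exists_point hp' hB hA h' h
  choose q hq using h1
  choose q' hq' using h1'
  -- concentration
  have conc : ∀ ε > 0, ∃ D : ℝ, ∀ a, θ a {b | ¬ nB D (q a) b} ≤ ε := by
    intro ε hε
    obtain ⟨D, hD⟩ := h2 ε hε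
    exact ⟨D, fun a => hD a _ (hq a)⟩
  have conc' : ∀ ε > 0, ∃ D : ℝ, ∀ b, θ' b {a | ¬ nA D (q' b) a} ≤ ε := by
    intro ε hε
    obtain ⟨D, hD⟩ := h2' ε hε
    exact ⟨D, fun b => hD b _ (hq' b)⟩
  -- inverse
  have inv : ∃ C : ℝ, ∀ a, nA C a (q' (q a)) := by
    obtain ⟨D, hD⟩ := conc' (1 / 8) (by norm_num)
    refine ⟨C₀ + D, fun a => ?_⟩
    obtain ⟨a', h3, h4⟩ := (h'.prob (q a)).exists_both (S := {a' | ¬ nA C₀ a a'})
      (T := {a' | ¬ nA D (q' (q a)) a'}) (by linarith [hq a, hD (q a)])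
    exact hA.tri _ _ _ _ _ (not_not.1 h3) (hA.symm _ _ _ (not_not.1 h4))
  have inv' : ∃ C : ℝ, ∀ b, nB C b (q (q' b)) := by
    obtain ⟨D, hD⟩ := conc (1 / 8) (by norm_num)
    refine ⟨C₀' + D, fun b => ?_⟩
    obtain ⟨b', h3, h4⟩ := (h.prob (q' b)).exists_both (S := {b' | ¬ nB C₀' b b'})
      (T := {b' | ¬ nB D (q (q' b)) b'}) (by linarith [hq' b, hD (q' b)])
    exact hB.tri _ _ _ _ _ (not_not.1 h3) (hB.symm _ _ _ (not_not.1 h4))
  -- Lipschitz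
  have lip : ∀ C : ℝ, ∃ D : ℝ, ∀ a a', nA C a a' → nB D (q a) (q a') := by
    intro C
    obtain ⟨η, hη, K, h3⟩ := h.per (1 / 4) (by norm_num) C
    obtain ⟨D₁, hD₁⟩ := conc η hη
    obtain ⟨D₂, hD₂⟩ := conc (1 / 4) (by norm_num)
    refine ⟨D₁ + K + D₂, fun a a' haa => ?_⟩
    have h4 : θ a' {b | ¬ nB (D₁ + K) (q a) b} ≤ 1 / 4 := by
      refine h3 a a' _ haa (le_trans ((h.prob a).mono _ _ ?_) (hD₁ a))
      rintro b ⟨b', hb', hK⟩ hc
      exact hb' (hB.tri _ _ _ _ _ hc hK)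
    obtain ⟨b, h5, h6⟩ := (h.prob a').exists_both (S := {b | ¬ nB (D₁ + K) (q a) b})
      (T := {b | ¬ nB D₂ (q a') b}) (by linarith [hD₂ a'])
    exact hB.tri _ _ _ _ _ (not_not.1 h5) (hB.symm _ _ _ (not_not.1 h6))
  have lip' : ∀ C : ℝ, ∃ D : ℝ, ∀ b b', nB C b b' → nA D (q' b) (q' b') := by
    intro C
    obtain ⟨η, hη, K, h3⟩ := h'.per (1 / 4) (by norm_num) C
    obtain ⟨D₁, hD₁⟩ := conc' η hη
    obtain ⟨D₂, hD₂⟩ := conc' (1 / 4) (by norm_num)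
    refine ⟨D₁ + K + D₂, fun b b' hbb => ?_⟩
    have h4 : θ' b' {a | ¬ nA (D₁ + K) (q' b) a} ≤ 1 / 4 := by
      refine h3 b b' _ hbb (le_trans ((h'.prob b).mono _ _ ?_) (hD₁ b))
      rintro a ⟨a', ha', hK⟩ hc
      exact ha' (hA.tri _ _ _ _ _ hc hK)
    obtain ⟨a, h5, h6⟩ := (h'.prob b').exists_both (S := {a | ¬ nA (D₁ + K) (q' b) a})
      (T := {a | ¬ nA D₂ (q' b') a}) (by linarith [hD₂ b'])
    exact hA.tri _ _ _ _ _ (not_not.1 h5) (hA.symm _ _ _ (not_not.1 h6))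
  -- localisation
  have loc : ∀ ε > 0, ∃ L C : ℝ, ∀ b, L ≤ gB b → mass (fun a => p a b) {a | ¬ nA C a (q' b)} ≤ ε := by
    intro ε hε
    obtain ⟨L, C, h3⟩ := h.ins (ε / 2) (by positivity)
    obtain ⟨D, hD⟩ := conc (1 / 4) (by norm_num)
    obtain ⟨C₁, hC₁⟩ := inv
    obtain ⟨C₂, hC₂⟩ := lip' (D + C)
    refine ⟨L, C₁ + C₂, fun b hb => ?_⟩
    have h4 := (hp.col b).markov (f := fun a => θ a {b' | ¬ nB C b b'}) (fun a => (h.prob a).nn _)
      (fun a => (h.prob a).le_one _) (η := 1 / 2) (e := ε / 2) (by norm_num) (h3 b hb)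
    have h5 : ε / 2 / (1 / 2) = ε := by ring
    rw [h5] at h4
    refine le_trans ((hp.col b).mass_mono fun a ha => ?_) h4
    by_contra hc
    have h6 : θ a {b' | ¬ nB C b b'} ≤ 1 / 2 := not_lt.1 hc
    obtain ⟨b', h7, h8⟩ := (h.prob a).exists_both (S := {b' | ¬ nB C b b'}) (T := {b' | ¬ nB D (q a) b'})
      (by linarith [hD a])
    have h9 := hC₂ (q a) b (hB.tri _ _ _ _ _ (not_not.1 h8) (hB.symm _ _ _ (not_not.1 h7)))
    exact ha (hA.tri _ _ _ _ _ (hC₁ a) h9)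
  have loc' : ∀ ε > 0, ∃ L C : ℝ, ∀ a, L ≤ gA a → mass (p a) {b | ¬ nB C b (q a)} ≤ ε := by
    intro ε hε
    obtain ⟨L, C, h3⟩ := h'.ins (ε / 2) (by positivity)
    obtain ⟨D, hD⟩ := conc' (1 / 4) (by norm_num)
    obtain ⟨C₁, hC₁⟩ := inv'
    obtain ⟨C₂, hC₂⟩ := lip (D + C)
    refine ⟨L, C₁ + C₂, fun a ha => ?_⟩
    have h4 := (hp.row a).markov (f := fun b => θ' b {a' | ¬ nA C a a'}) (fun b => (h'.prob b).nn _)
      (fun b => (h'.prob b).le_one _) (η := 1 / 2) (e := ε / 2) (by norm_num) (h3 a ha)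
    have h5 : ε / 2 / (1 / 2) = ε := by ring
    rw [h5] at h4
    refine le_trans ((hp.row a).mass_mono fun b hb => ?_) h4
    by_contra hc
    have h6 : θ' b {a' | ¬ nA C a a'} ≤ 1 / 2 := not_lt.1 hc
    obtain ⟨a', h7, h8⟩ := (h'.prob b).exists_both (S := {a' | ¬ nA C a a'}) (T := {a' | ¬ nA D (q' b) a'})
      (by linarith [hD b])
    have h9 := hC₂ (q' b) a (hA.tri _ _ _ _ _ (not_not.1 h8) (hA.symm _ _ _ (not_not.1 h7)))
    exact hb (hB.tri _ _ _ _ _ (hC₁ b) h9)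
  exact ⟨q, q', ⟨conc, inv, lip, loc⟩, ⟨conc', inv', lip', loc'⟩⟩

end Pool.Agent.Helper85.KL
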