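import Pool.Agent.Helper85.KL.Tight

/-!
# Project FQ (MP_0f6f3f_an), layer SZ, abstract part: the sizes of all elements

`SizeMap p a1 b1 f`: for elements `a` with ONE large gap `u` all other gaps of `b`, `b` of law `p a`, are `f i (a1 a i)`, up to a
bounded error in probability (the other gaps of `a` are arbitrary); with two large gaps all gaps. `exists_size`: such
functions exist in both directions, they are coarsely Lipschitz, nonnegative and coarse inverses of each other.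
-/

set_option autoImplicit false

namespace Pool.Agent.Helper85.KL

open Set

variable {A B I : Type}

/-- The map of sizes, gap by gap. -/
structure SizeMap (p : A → B → ℝ) (a1 : A → I → ℝ) (b1 : B → I → ℝ) (f : I → ℝ → ℝ) : Prop where
  /-- one large gap -/
  one : ∀ ε > 0, ∃ L C : ℝ, ∀ u a, L ≤ a1 a u → mass (p a) {b | ∃ i, i ≠ u ∧ C < |b1 b i - f i (a1 a i)|} ≤ ε
  /-- two large gaps -/
  two : ∀ ε > 0, ∃ L C : ℝ, ∀ u v a, u ≠ v → L ≤ a1 a u → L ≤ a1 a v →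
    mass (p a) {b | ∃ i, C < |b1 b i - f i (a1 a i)|} ≤ ε
  nonneg : ∀ i t, 0 ≤ f i t
  lip : ∀ C : ℝ, ∃ D : ℝ, 0 ≤ D ∧ ∀ i s t, 0 ≤ s → 0 ≤ t → |s - t| ≤ C → |f i s - f i t| ≤ D

section

variable {p : A → B → ℝ} {a1 : A → I → ℝ} {b1 : B → I → ℝ} {θ : I → A → Set B → ℝ} {θ' : I → B → Set A → ℝ}
  {q : I → A → B} {q' : I → B → A}

/-- Raise the gap `v`. -/
theorem raise (ha : ∀ a v, 0 ≤ a1 a v) (h' : Nodes (fun b a => p a b) b1 a1 θ' q' q) (v : I) :
    ∃ C₀ : ℝ, 0 ≤ C₀ ∧ ∀ L : ℝ, 0 ≤ L → ∀ a, ∃ a', nr a1 v C₀ a a' ∧ L ≤ a1 a' v ∧ |a1 a v - a1 a' v| ≤ L + C₀ := by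
  obtain ⟨C₀, hC, h1⟩ := h'.ext v
  refine ⟨C₀, hC, fun L hL a => ?_⟩
  by_cases hc : a1 a v < L
  · obtain ⟨a', e1, e2, e3⟩ := h1 a L hL
    refine ⟨a', e1, e2, ?_⟩
    have h2 := ha a v
    rw [abs_le]
    constructor <;> linarith
  · refine ⟨a, (near_nr a1 v).refl _ _ hC, not_lt.1 hc, ?_⟩
    rw [sub_self, abs_zero]
    linarith

/-- The maps of two nodes. -/
theorem near_qq (hp : DS p) (ha : ∀ a v, 0 ≤ a1 a v) (h : Nodes p a1 b1 θ q q')
    (h' : Nodes (fun b a => p a b) b1 a1 θ' q' q) (u v : I) :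
    ∃ C : ℝ, ∀ a i, i ≠ u → i ≠ v → |b1 (q u a) i - b1 (q v a) i| ≤ C := by
  classical
  by_cases huv : u = v
  · refine ⟨0, fun a i _ _ => ?_⟩
    rw [huv]
    simp
  obtain ⟨Lu, Cu, hu⟩ := (h'.ker u).loc (1 / 4) (by norm_num)
  obtain ⟨Lv, Cv, hv⟩ := (h'.ker v).loc (1 / 4) (by norm_num)
  obtain ⟨Eu, hEu, eu⟩ := raise ha h' u
  obtain ⟨Ev, hEv, ev⟩ := raise ha h' v
  set L : ℝ := |Lu| + |Lv| with hL
  have hLu : Lu ≤ L := by
    have := le_abs_self Lu
    have := abs_nonneg Lv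
    linarith
  have hLv : Lv ≤ L := by
    have := le_abs_self Lv
    have := abs_nonneg Lu
    linarith
  have hL0 : 0 ≤ L := by positivity
  obtain ⟨Du, hDu⟩ := (h.ker u).lip (L + Ev + Eu + Ev)
  obtain ⟨Dv, hDv⟩ := (h.ker v).lip (L + Ev + Eu + Ev)
  refine ⟨Du + Cu + (Cv + Dv), fun a i hiu hiv => ?_⟩
  obtain ⟨a₁, e1, e2, e3⟩ := eu (L + Ev) (by positivity) a
  obtain ⟨a₂, g1, g2, g3⟩ := ev L hL0 a₁
  have huv' : u ≠ v := huv
  have k1 : nr a1 u (L + Ev + Eu + Ev) a a₂ := by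
    intro w hw
    have h1 := e1 w hw
    have h3 := abs_sub_le (a1 a w) (a1 a₁ w) (a1 a₂ w)
    by_cases hwv : w = v
    · rw [hwv] at h1 h3 ⊢
      linarith
    · have h2 := g1 w hwv
      linarith
  have k2 : nr a1 v (L + Ev + Eu + Ev) a a₂ := by
    intro w hw
    have h1 := g1 w hw
    have h3 := abs_sub_le (a1 a w) (a1 a₁ w) (a1 a₂ w)
    by_cases hwu : w = u
    · rw [hwu] at h1 h3 ⊢
      linarith
    · have h2 := e1 w hwu
      linarith
  have k4 : L ≤ a1 a₂ u := by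
    have h1 := abs_le.1 (g1 u huv')
    linarith [h1.2]
  obtain ⟨b, hb1, hb2⟩ := (hp.row a₂).exists_both (S := {b | ¬ nr b1 u Cu b (q u a₂)})
    (T := {b | ¬ nr b1 v Cv b (q v a₂)}) (by linarith [hu a₂ (le_trans hLu k4), hv a₂ (le_trans hLv g2)])
  have hb1' := (not_not.1 hb1 : nr b1 u Cu b (q u a₂)) i hiu
  have hb2' := (not_not.1 hb2 : nr b1 v Cv b (q v a₂)) i hiv
  have m1 := hDu a a₂ k1 i hiu
  have m2 := hDv a a₂ k2 i hiv
  rw [abs_le] at *
  constructor <;> linarith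

/-- The coordinate `i` of `q u a`, `u ≠ i`, depends only on the coordinate `i` of `a`. -/
theorem gap_one [Fintype I] (hp : DS p) (ha : ∀ a v, 0 ≤ a1 a v) (h : Nodes p a1 b1 θ q q')
    (h' : Nodes (fun b a => p a b) b1 a1 θ' q' q) (i : I) (C : ℝ) :
    ∃ D : ℝ, 0 ≤ D ∧ ∀ u v, u ≠ i → v ≠ i → ∀ a a', |a1 a i - a1 a' i| ≤ C → |b1 (q u a) i - b1 (q v a') i| ≤ D := by
  classical
  -- a bound for the differences of the nodes
  have h1 := fun u v : I => near_qq hp ha h h' u v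
  choose N hN using h1
  set N₀ := ∑ u, ∑ v, |N u v| with hN₀
  have hN₀' : ∀ u v a, u ≠ i → v ≠ i → |b1 (q u a) i - b1 (q v a) i| ≤ N₀ := by
    intro u v a hu hv
    refine le_trans (hN u v a i hu.symm hv.symm) (le_trans (le_abs_self _) ?_)
    refine le_trans (Finset.single_le_sum (f := fun v => |N u v|) (fun v _ => abs_nonneg _) (Finset.mem_univ v)) ?_
    exact Finset.single_le_sum (f := fun u => ∑ v, |N u v|) (fun u _ => Finset.sum_nonneg fun v _ => abs_nonneg _)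
      (Finset.mem_univ u)
  have hN00 : 0 ≤ N₀ := Finset.sum_nonneg fun u _ => Finset.sum_nonneg fun v _ => abs_nonneg _
  have key : ∀ T : Finset I, i ∉ T → ∀ C : ℝ, ∃ D : ℝ, 0 ≤ D ∧ ∀ u, u ≠ i → ∀ a a', (∀ v, v ∉ T → |a1 a v - a1 a' v| ≤ C) →
      |b1 (q u a) i - b1 (q u a') i| ≤ D := by
    intro T
    induction T using Finset.cons_induction with
    | empty =>
      intro _ C
      have h2 := fun u : I => (h.ker u).lip C
      choose D hD using h2
      refine ⟨∑ u, |D u|, Finset.sum_nonneg fun u _ => abs_nonneg _, fun u hu a a' haa => ?_⟩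
      refine le_trans (hD u a a' (fun v _ => haa v (Finset.notMem_empty v)) i hu.symm) (le_trans (le_abs_self _) ?_)
      exact Finset.single_le_sum (f := fun v => |D v|) (fun v _ => abs_nonneg _) (Finset.mem_univ u)
    | cons w T hw ih =>
      intro hi C
      have hwi : w ≠ i := fun hc => hi (Finset.mem_cons.2 (Or.inl hc.symm))
      have hiT : i ∉ T := fun hc => hi (Finset.mem_cons.2 (Or.inr hc))
      obtain ⟨E, hE, hext⟩ := h'.ext w
      obtain ⟨D, hD0, hD⟩ := ih hiT (max (C + E) E)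
      obtain ⟨D', hD'⟩ := (h.ker w).lip E
      refine ⟨N₀ + (|D'| + (N₀ + D)), by positivity, fun u hu a a' haa => ?_⟩
      obtain ⟨a₂, e1, e2, e3⟩ := hext a (a1 a' w) (ha a' w)
      have m1 := hN₀' u w a hu hwi
      have m2 := hD' a a₂ e1 i hwi.symm
      have m3 := hN₀' w u a₂ hwi hu
      have m4 := hD u hu a₂ a' fun v hv => by
        by_cases hvw : v = w
        · rw [hvw]
          refine le_trans ?_ (le_max_right _ _)
          rw [abs_le]
          constructor <;> linarith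
        · refine le_trans ?_ (le_max_left _ _)
          have n1 := haa v fun hc => (Finset.mem_cons.1 hc).elim hvw hv
          have n2 := e1 v hvw
          have n3 := abs_sub_le (a1 a₂ v) (a1 a v) (a1 a' v)
          rw [abs_sub_comm] at n2
          linarith
      have m2' := le_trans m2 (le_abs_self D')
      rw [abs_le] at m1 m2' m3 m4 ⊢
      constructor <;> linarith
  obtain ⟨D, hD0, hD⟩ := key (Finset.univ.erase i) (Finset.notMem_erase i _) C
  refine ⟨D + N₀, by positivity, fun u v hu hv a a' haa => ?_⟩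
  have m1 := hD u hu a a' fun w hw => by
    have : w = i := by
      by_contra hc
      exact hw (Finset.mem_erase.2 ⟨hc, Finset.mem_univ _⟩)
    rw [this]
    exact haa
  have m2 := hN₀' u v a' hu hv
  rw [abs_le] at *
  constructor <;> linarith

/-- The size function of the maps `q`. -/
theorem exists_f [Fintype I] [Nontrivial I] [Nonempty A] (hp : DS p) (ha : ∀ a v, 0 ≤ a1 a v)
    (hb : ∀ b v, 0 ≤ b1 b v) (h : Nodes p a1 b1 θ q q') (h' : Nodes (fun b a => p a b) b1 a1 θ' q' q) :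
    ∃ f : I → ℝ → ℝ, (∀ i t, 0 ≤ f i t) ∧
      (∀ C : ℝ, ∃ D : ℝ, 0 ≤ D ∧ ∀ i s t, 0 ≤ s → 0 ≤ t → |s - t| ≤ C → |f i s - f i t| ≤ D) ∧
      (∀ C : ℝ, ∃ D : ℝ, 0 ≤ D ∧ ∀ u i a t, u ≠ i → 0 ≤ t → |a1 a i - t| ≤ C → |b1 (q u a) i - f i t| ≤ D) ∧
      ∃ C₀ : ℝ, 0 ≤ C₀ ∧ ∀ i t, 0 ≤ t → ∃ u a, u ≠ i ∧ |a1 a i - t| ≤ C₀ ∧ f i t = b1 (q u a) i := by
  classical
  obtain ⟨a₀⟩ := (inferInstance : Nonempty A)
  have h1 : ∀ i : I, ∃ u : I, u ≠ i := exists_ne
  choose w hw using h1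
  have h2 : ∀ i : I, ∃ C₀ : ℝ, 0 ≤ C₀ ∧ ∀ t : ℝ, ∃ a, |a1 a i - max t 0| ≤ C₀ := by
    intro i
    obtain ⟨C₀, hC, h3⟩ := h'.ext i
    refine ⟨C₀, hC, fun t => ?_⟩
    obtain ⟨a, -, e2, e3⟩ := h3 a₀ (max t 0) (le_max_right _ _)
    exact ⟨a, by rw [abs_le]; constructor <;> linarith⟩
  choose c hc0 hc using h2
  choose e he using hc
  have hcs : ∀ i, c i ≤ ∑ i, c i := fun i => Finset.single_le_sum (fun i _ => hc0 i) (Finset.mem_univ i)
  have hcs0 : 0 ≤ ∑ i, c i := Finset.sum_nonneg fun i _ => hc0 i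
  refine ⟨fun i t => b1 (q (w i) (e i t)) i, fun i t => hb _ _, fun C => ?_, fun C => ?_,
    ∑ i, c i, hcs0, fun i t ht => ⟨w i, e i t, hw i, ?_, rfl⟩⟩
  · have h3 := fun i : I => gap_one hp ha h h' i (C + 2 * ∑ i, c i)
    choose D hD0 hD using h3
    refine ⟨∑ i, D i, Finset.sum_nonneg fun i _ => hD0 i, fun i s t hs ht hst => ?_⟩
    refine le_trans (hD i (w i) (w i) (hw i) (hw i) (e i s) (e i t) ?_)
      (Finset.single_le_sum (fun i _ => hD0 i) (Finset.mem_univ i))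
    have h4 := he i s
    have h5 := he i t
    rw [max_eq_left hs] at h4
    rw [max_eq_left ht] at h5
    have h6 := hcs i
    rw [abs_le] at *
    constructor <;> linarith
  · have h3 := fun i : I => gap_one hp ha h h' i (C + ∑ i, c i)
    choose D hD0 hD using h3
    refine ⟨∑ i, D i, Finset.sum_nonneg fun i _ => hD0 i, fun u i a t hu ht hat => ?_⟩
    refine le_trans (hD i u (w i) hu (hw i) a (e i t) ?_)
      (Finset.single_le_sum (fun i _ => hD0 i) (Finset.mem_univ i))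
    have h5 := he i t
    rw [max_eq_left ht] at h5
    have h6 := hcs i
    rw [abs_le] at *
    constructor <;> linarith
  · have h5 := he i t
    rw [max_eq_left ht] at h5
    exact le_trans h5 (hcs i)

/-- The law of the gaps. -/
theorem size_of [Fintype I] (hp : DS p) (ha : ∀ a v, 0 ≤ a1 a v)
    (h' : Nodes (fun b a => p a b) b1 a1 θ' q' q) {f : I → ℝ → ℝ} (f0 : ∀ i t, 0 ≤ f i t)
    (fl : ∀ C : ℝ, ∃ D : ℝ, 0 ≤ D ∧ ∀ i s t, 0 ≤ s → 0 ≤ t → |s - t| ≤ C → |f i s - f i t| ≤ D)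
    (fq : ∀ C : ℝ, ∃ D : ℝ, 0 ≤ D ∧ ∀ u i a t, u ≠ i → 0 ≤ t → |a1 a i - t| ≤ C → |b1 (q u a) i - f i t| ≤ D) :
    SizeMap p a1 b1 f := by
  classical
  have one : ∀ ε > 0, ∃ L C : ℝ, ∀ u a, L ≤ a1 a u → mass (p a) {b | ∃ i, i ≠ u ∧ C < |b1 b i - f i (a1 a i)|} ≤ ε := by
    intro ε hε
    have h1 := fun u : I => (h'.ker u).loc ε hε
    choose L C hL using h1
    obtain ⟨D, hD0, hD⟩ := fq 0
    refine ⟨∑ u, |L u|, ∑ u, |C u| + D, fun u a hua => ?_⟩
    have h2 : L u ≤ ∑ u, |L u| := le_trans (le_abs_self _)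
      (Finset.single_le_sum (f := fun v => |L v|) (fun v _ => abs_nonneg _) (Finset.mem_univ u))
    have h3 : C u ≤ ∑ u, |C u| := le_trans (le_abs_self _)
      (Finset.single_le_sum (f := fun v => |C v|) (fun v _ => abs_nonneg _) (Finset.mem_univ u))
    refine le_trans ((hp.row a).mass_mono ?_) (hL u a (le_trans h2 hua))
    rintro b ⟨i, hi, hb⟩ hc
    have h4 := hc i hi
    have h5 := hD u i a (a1 a i) hi.symm (ha a i) (by simp)
    have h6 := abs_sub_le (b1 b i) (b1 (q u a) i) (f i (a1 a i))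
    linarith
  refine ⟨one, fun ε hε => ?_, f0, fl⟩
  obtain ⟨L, C, h1⟩ := one (ε / 2) (by positivity)
  refine ⟨L, C, fun u v a huv hu hv => ?_⟩
  have h2 := (hp.row a).mass_union {b | ∃ i, i ≠ u ∧ C < |b1 b i - f i (a1 a i)|}
    {b | ∃ i, i ≠ v ∧ C < |b1 b i - f i (a1 a i)|}
  refine le_trans ((hp.row a).mass_mono ?_) (le_trans h2 (by linarith [h1 u a hu, h1 v a hv]))
  rintro b ⟨i, hi⟩
  by_cases hiu : i = u
  · exact Or.inr ⟨i, by rw [hiu]; exact huv, hi⟩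
  · exact Or.inl ⟨i, hiu, hi⟩

/-- **Sizes** (layer SZ, abstract form): both directions, coarse inverses. -/
theorem exists_size [Fintype I] [Nontrivial I] [Nonempty A] [Nonempty B] (hp : DS p) (ha : ∀ a v, 0 ≤ a1 a v)
    (hb : ∀ b v, 0 ≤ b1 b v) (h : Nodes p a1 b1 θ q q') (h' : Nodes (fun b a => p a b) b1 a1 θ' q' q) :
    ∃ f f' : I → ℝ → ℝ, SizeMap p a1 b1 f ∧ SizeMap (fun b a => p a b) b1 a1 f' ∧
      (∃ C : ℝ, 0 ≤ C ∧ ∀ i t, 0 ≤ t → |f' i (f i t) - t| ≤ C) ∧ (∃ C : ℝ, 0 ≤ C ∧ ∀ i t, 0 ≤ t → |f i (f' i t) - t| ≤ C) ∧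
      (∃ D : ℝ, ∀ u i a, u ≠ i → |b1 (q u a) i - f i (a1 a i)| ≤ D) ∧
      (∃ D : ℝ, ∀ u i b, u ≠ i → |a1 (q' u b) i - f' i (b1 b i)| ≤ D) := by
  have hp' : DS fun b a => p a b := ⟨hp.col, hp.row⟩
  obtain ⟨f, f0, fl, fq, C₀, hC₀, fe⟩ := exists_f hp ha hb h h'
  obtain ⟨f', f0', fl', fq', C₀', hC₀', fe'⟩ := exists_f hp' hb ha h' h
  obtain ⟨D, hD0, hD⟩ := fq 0
  obtain ⟨D', hD0', hD'⟩ := fq' 0
  refine ⟨f, f', size_of hp ha h' f0 fl fq, size_of hp' hb h f0' fl' fq', ?_, ?_,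
    ⟨D, fun u i a hu => hD u i a _ hu (ha a i) (by simp)⟩, ⟨D', fun u i b hu => hD' u i b _ hu (hb b i) (by simp)⟩⟩
  · have h1 := fun u : I => (h.ker u).inv
    choose C hC using h1
    refine ⟨D' + (∑ u, |C u| + C₀), by positivity, fun i t ht => ?_⟩
    obtain ⟨u, a, hu, hat, e⟩ := fe i t ht
    rw [e]
    have h2 := hD' u i (q u a) (b1 (q u a) i) hu (hb _ _) (by simp)
    have h3 := hC u a i hu.symm
    have h4 : C u ≤ ∑ u, |C u| := le_trans (le_abs_self _)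
      (Finset.single_le_sum (f := fun v => |C v|) (fun v _ => abs_nonneg _) (Finset.mem_univ u))
    have h3' := le_trans h3 h4
    rw [abs_le] at *
    constructor <;> linarith
  · have h1 := fun u : I => (h'.ker u).inv
    choose C hC using h1
    refine ⟨D + (∑ u, |C u| + C₀'), by positivity, fun i t ht => ?_⟩
    obtain ⟨u, b, hu, hat, e⟩ := fe' i t ht
    rw [e]
    have h2 := hD u i (q' u b) (a1 (q' u b) i) hu (ha _ _) (by simp)
    have h3 := hC u b i hu.symm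
    have h4 : C u ≤ ∑ u, |C u| := le_trans (le_abs_self _)
      (Finset.single_le_sum (f := fun v => |C v|) (fun v _ => abs_nonneg _) (Finset.mem_univ u))
    have h3' := le_trans h3 h4
    rw [abs_le] at *
    constructor <;> linarith

end

end Pool.Agent.Helper85.KL
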