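import Pool.Agent.Helper85.KL.Gap

/-!
# Project FQ (MP_0f6f3f_an): TIGHT for single elements is a consequence

`tight_of_ker`: the field `tight` of `Nodes` follows from the kernel lemma at the node (`loc`, `lip`), nonnegative gaps and the finiteness of
the sets of elements with bounded gaps. `nodes_of`: `Nodes` from `Ker` and `ext`. `exists_all`: everything from `Sand` in both directions.
-/

set_option autoImplicit false

namespace Pool.Agent.Helper85.KL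

open Set

variable {A B I : Type}

/-- Tails. -/
theorem PW.tail {w : A → ℝ} (h : PW w) (f : A → ℝ) {ε : ℝ} (hε : 0 < ε) :
    ∃ C : ℝ, mass w {a | C < f a} ≤ ε := by
  classical
  have h1 := h.sum
  rw [HasSum] at h1
  have h2 : ∀ᶠ F : Finset A in Filter.atTop, 1 - ε < ∑ a ∈ F, w a :=
    h1.eventually (lt_mem_nhds (by linarith))
  obtain ⟨F, hF⟩ := h2.exists
  refine ⟨∑ a ∈ F, |f a|, ?_⟩
  have h3 : {a | ∑ a ∈ F, |f a| < f a} ⊆ (F : Set A)ᶜ := by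
    intro a ha hc
    have h4 : |f a| ≤ ∑ a ∈ F, |f a| := Finset.single_le_sum (f := fun v => |f v|) (fun v _ => abs_nonneg _) hc
    exact absurd (lt_of_le_of_lt h4 ha) (not_lt.2 (le_abs_self _))
  refine le_trans (h.mass_mono h3) ?_
  have h5 : mass w (F : Set A) + mass w (F : Set A)ᶜ = 1 := by
    rw [← h.mass_univ]
    unfold mass
    rw [← (h.summ _).tsum_add (h.summ _)]
    congr 1
    funext a
    by_cases h6 : a ∈ (F : Set A) <;> simp [indicator, h6]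
  have h6 : mass w (F : Set A) = ∑ a ∈ F, w a := by
    unfold mass
    rw [tsum_eq_sum (s := F) fun a ha => indicator_of_notMem (by simpa using ha) _]
    exact Finset.sum_congr rfl fun a ha => indicator_of_mem (by simpa using ha) _
  linarith

/-- **TIGHT for the elements with one large gap.** -/
theorem tight_of_ker [Fintype I] {p : A → B → ℝ} {a1 : A → I → ℝ} {b1 : B → I → ℝ} {θ : A → Set B → ℝ}
    {θ' : B → Set A → ℝ} {q : A → B} {q' : B → A} (hp : DS p) (hb : ∀ b v, 0 ≤ b1 b v)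
    (hfin : ∀ C : ℝ, {b | ∀ v, b1 b v ≤ C}.Finite) {i : I}
    (h : Ker p (nr a1 i) (fun a => a1 a i) (nr b1 i) (fun b => b1 b i) θ q q')
    (h' : Ker (fun b a => p a b) (nr b1 i) (fun b => b1 b i) (nr a1 i) (fun a => a1 a i) θ' q' q) {ε : ℝ} (hε : 0 < ε)
    (C : ℝ) : ∃ C' : ℝ, ∀ b, (∀ v, v ≠ i → b1 b v ≤ C) →
      mass (fun a => p a b) {a | ∃ v, v ≠ i ∧ C' < a1 a v} ≤ ε := by
  classical
  by_cases hB : Nonempty B
  swap
  · exact ⟨0, fun b => absurd ⟨b⟩ hB⟩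
  obtain ⟨e⟩ := hB
  obtain ⟨L, C₁, hloc⟩ := h.loc ε hε
  obtain ⟨D, hD⟩ := h'.lip (|C| + ∑ v, b1 e v)
  set T : Set B := {b | ∀ v, b1 b v ≤ max C L} with hT
  have h1 : ∃ C' : ℝ, ∀ b ∈ T, mass (fun a => p a b) {a | ∃ v, v ≠ i ∧ C' < a1 a v} ≤ ε := by
    have h2 : ∀ b : B, ∃ C' : ℝ, mass (fun a => p a b) {a | C' < ∑ v, |a1 a v|} ≤ ε := fun b => (hp.col b).tail _ hε
    choose c hc using h2
    refine ⟨∑ b ∈ (hfin (max C L)).toFinset, |c b|, fun b hbT => le_trans ((hp.col b).mass_mono ?_) (hc b)⟩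
    rintro a ⟨v, -, hv⟩
    have h3 : |c b| ≤ ∑ b ∈ (hfin (max C L)).toFinset, |c b| :=
      Finset.single_le_sum (f := fun b => |c b|) (fun v _ => abs_nonneg _)
        ((hfin (max C L)).mem_toFinset.2 hbT)
    have h4 : |a1 a v| ≤ ∑ v, |a1 a v| :=
      Finset.single_le_sum (f := fun v => |a1 a v|) (fun v _ => abs_nonneg _) (Finset.mem_univ v)
    change c b < ∑ v, |a1 a v|
    linarith [le_abs_self (c b), le_abs_self (a1 a v)]
  obtain ⟨C₂, h2⟩ := h1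
  refine ⟨max C₂ (∑ v, |a1 (q' e) v| + D + C₁), fun b hbC => ?_⟩
  by_cases hbi : b1 b i ≤ L
  · refine le_trans ((hp.col b).mass_mono ?_) (h2 b fun v => ?_)
    · rintro a ⟨v, hv, hav⟩
      exact ⟨v, hv, lt_of_le_of_lt (le_max_left _ _) hav⟩
    · by_cases hv : v = i
      · rw [hv]
        exact le_trans hbi (le_max_right _ _)
      · exact le_trans (hbC v hv) (le_max_left _ _)
  · push Not at hbi
    have h3 : nr b1 i (|C| + ∑ v, b1 e v) b e := by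
      intro v hv
      have h4 := hbC v hv
      have h5 := hb b v
      have h6 : b1 e v ≤ ∑ v, b1 e v := Finset.single_le_sum (f := fun v => b1 e v) (fun v _ => hb e v) (Finset.mem_univ v)
      have h7 := hb e v
      rw [abs_le]
      constructor <;> linarith [le_abs_self C, abs_nonneg C]
    refine le_trans ((hp.col b).mass_mono ?_) (hloc b hbi.le)
    rintro a ⟨v, hv, hav⟩ hc
    have h4 : a1 (q' e) v ≤ ∑ v, |a1 (q' e) v| := le_trans (le_abs_self _)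
      (Finset.single_le_sum (f := fun v => |a1 (q' e) v|) (fun v _ => abs_nonneg _) (Finset.mem_univ v))
    have h5 : a1 (q' b) v ≤ ∑ v, |a1 (q' e) v| + D := nr_le (hD b e h3) hv h4
    have h6 : a1 a v ≤ ∑ v, |a1 (q' e) v| + D + C₁ := nr_le hc hv h5
    exact absurd (lt_of_le_of_lt (le_max_right _ _) hav) (not_lt.2 h6)

/-- **Everything** (vertex form): from the sandwich data of all nodes, both directions. -/
theorem exists_all [Fintype I] [DecidableEq I] [Nontrivial I] {p : A → B → ℝ} {a1 : A → I → ℝ} {b1 : B → I → ℝ}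
    {θ : I → A → Set B → ℝ} {θ' : I → B → Set A → ℝ} (hp : DS p) (ha : ∀ a v, 0 ≤ a1 a v) (hb : ∀ b v, 0 ≤ b1 b v)
    (hfa : ∀ C : ℝ, {a | ∀ v, a1 a v ≤ C}.Finite) (hfb : ∀ C : ℝ, {b | ∀ v, b1 b v ≤ C}.Finite)
    (h : ∀ i, Sand p (nr a1 i) (fun a => a1 a i) (nr b1 i) (fun b => b1 b i) (θ i))
    (h' : ∀ i, Sand (fun b a => p a b) (nr b1 i) (fun b => b1 b i) (nr a1 i) (fun a => a1 a i) (θ' i))
    (extA : ∀ i, ∃ C₀ : ℝ, 0 ≤ C₀ ∧ ∀ a, ∀ L : ℝ, 0 ≤ L → ∃ a', nr a1 i C₀ a a' ∧ L ≤ a1 a' i ∧ a1 a' i ≤ L + C₀)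
    (extB : ∀ i, ∃ C₀ : ℝ, 0 ≤ C₀ ∧ ∀ b, ∀ L : ℝ, 0 ≤ L → ∃ b', nr b1 i C₀ b b' ∧ L ≤ b1 b' i ∧ b1 b' i ≤ L + C₀) :
    ∃ (q : I → A → B) (q' : I → B → A) (r : B → A) (r' : A → B),
      Nodes p a1 b1 θ q q' ∧ Nodes (fun b a => p a b) b1 a1 θ' q' q ∧
      BiLoc p a1 b1 r ∧ BiLoc (fun b a => p a b) b1 a1 r' ∧
      (∃ R C : ℝ, ∀ a, (∀ i, R ≤ a1 a i) → nf a1 C a (r (r' a))) ∧
      (∃ R C : ℝ, ∀ b, (∀ i, R ≤ b1 b i) → nf b1 C b (r' (r b))) ∧
      (∃ f : I → ℝ → ℝ, ∃ R C : ℝ, ∀ a, (∀ v, R ≤ a1 a v) → ∀ i, |b1 (r' a) i - f i (a1 a i)| ≤ C) ∧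
      ∃ f : I → ℝ → ℝ, ∃ R C : ℝ, ∀ b, (∀ v, R ≤ b1 b v) → ∀ i, |a1 (r b) i - f i (b1 b i)| ≤ C := by
  have hp' : DS fun b a => p a b := ⟨hp.col, hp.row⟩
  have h1 : ∀ i, ∃ (q : A → B) (q' : B → A), Ker p (nr a1 i) (fun a => a1 a i) (nr b1 i) (fun b => b1 b i) (θ i) q q' ∧
      Ker (fun b a => p a b) (nr b1 i) (fun b => b1 b i) (nr a1 i) (fun a => a1 a i) (θ' i) q' q :=
    fun i => exists_ker hp (near_nr a1 i) (near_nr b1 i) (h i) (h' i)
  choose q q' hk hk' using h1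
  have hN : Nodes p a1 b1 θ q q' :=
    ⟨hk, fun i ε hε C => tight_of_ker hp hb hfb (hk i) (hk' i) hε C, extB⟩
  have hN' : Nodes (fun b a => p a b) b1 a1 θ' q' q :=
    ⟨hk', fun i ε hε C => tight_of_ker hp' ha hfa (hk' i) (hk i) hε C, extA⟩
  obtain ⟨r, r', hr, hr', hinv, hinv'⟩ := exists_biloc hp hN hN'
  exact ⟨q, q', r, r', hN, hN', hr, hr', hinv, hinv', exists_gap hp hN hN' hr', exists_gap hp' hN' hN hr⟩

end Pool.Agent.Helper85.KL
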