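import Pool.Agent.Helper85.KL.Biloc

/-!
# Project FQ (MP_0f6f3f_an): the size map acts gap by gap (any rank)

`near_q`: `r' a` agrees with `q u a` outside the coordinate `u`, for EVERY node `u`. `gapwise`: the coordinate `i` of `r' a`
depends only on the coordinate `i` of `a` (coarsely). `exists_gap`: functions `f i` with `b1 (r' a) i = f i (a1 a i) + O(1)`.
-/

set_option autoImplicit false

namespace Pool.Agent.Helper85.KL

open Set

variable {A B I : Type}

/-- `r' a` and `q u a` agree outside `u`. -/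
theorem near_q {p : A → B → ℝ} {a1 : A → I → ℝ} {b1 : B → I → ℝ} {θ' : B → Set A → ℝ} {q : A → B}
    {q' : B → A} {r' : A → B} (hp : DS p) (hr : BiLoc (fun b a => p a b) b1 a1 r') {u : I}
    (hk : Ker (fun b a => p a b) (nr b1 u) (fun b => b1 b u) (nr a1 u) (fun a => a1 a u) θ' q' q) :
    ∃ R C : ℝ, ∀ a, (∀ i, R ≤ a1 a i) → nr b1 u C (r' a) (q a) := by
  obtain ⟨R, C, h1⟩ := hr.loc (1 / 4) (by norm_num)
  obtain ⟨L, C', h2⟩ := hk.loc (1 / 4) (by norm_num)
  refine ⟨max R L, C + C', fun a ha => ?_⟩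
  obtain ⟨b, h3, h4⟩ := (hp.row a).exists_both (S := {b | ¬ nf b1 C b (r' a)}) (T := {b | ¬ nr b1 u C' b (q a)})
    (by linarith [h1 a fun i => le_trans (le_max_left _ _) (ha i), h2 a (le_trans (le_max_right _ _) (ha u))])
  exact (near_nr b1 u).tri _ _ _ _ _ ((near_nr b1 u).symm _ _ _ (nr_of u (not_not.1 h3))) (not_not.1 h4)

/-- **The coordinate `i` of `r' a` depends only on the coordinate `i` of `a`.** -/
theorem gapwise [Fintype I] [DecidableEq I] {p : A → B → ℝ} {a1 : A → I → ℝ} {b1 : B → I → ℝ}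
    {θ : I → A → Set B → ℝ} {θ' : I → B → Set A → ℝ} {q : I → A → B} {q' : I → B → A} {r' : A → B} (hp : DS p)
    (h : Nodes p a1 b1 θ q q') (h' : Nodes (fun b a => p a b) b1 a1 θ' q' q)
    (hr : BiLoc (fun b a => p a b) b1 a1 r') (i : I) (C : ℝ) :
    ∃ R D : ℝ, ∀ a a', (∀ v, R ≤ a1 a v) → (∀ v, R ≤ a1 a' v) → |a1 a i - a1 a' i| ≤ C →
      |b1 (r' a) i - b1 (r' a') i| ≤ D := by
  have key : ∀ T : Finset I, i ∉ T → ∀ C : ℝ, ∃ R D : ℝ, ∀ a a', (∀ v, R ≤ a1 a v) → (∀ v, R ≤ a1 a' v) →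
      (∀ v, v ∉ T → |a1 a v - a1 a' v| ≤ C) → |b1 (r' a) i - b1 (r' a') i| ≤ D := by
    intro T
    induction T using Finset.cons_induction with
    | empty =>
      intro _ C
      obtain ⟨R, D, h1⟩ := hr.lip C
      exact ⟨R, D, fun a a' ha ha' haa => h1 a a' ha ha' (fun v => haa v (by simp)) i⟩
    | cons u T hu ih =>
      intro hi C
      have hiu : i ≠ u := fun hc => hi (Finset.mem_cons.2 (Or.inl hc))
      have hiT : i ∉ T := fun hc => hi (Finset.mem_cons.2 (Or.inr hc))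
      obtain ⟨C₀, hC₀, hext⟩ := h'.ext u
      obtain ⟨R₁, D₁, h1⟩ := ih hiT (C + C₀)
      obtain ⟨R₂, C₂, h2⟩ := near_q hp hr (h'.ker u)
      obtain ⟨D₂, h3⟩ := (h.ker u).lip C₀
      refine ⟨max (max R₁ R₂) 0 + C₀, C₂ + D₂ + C₂ + D₁, fun a a' ha ha' haa => ?_⟩
      have hm0 : (0 : ℝ) ≤ max (max R₁ R₂) 0 := le_max_right _ _
      have hm1 : R₁ ≤ max (max R₁ R₂) 0 := le_trans (le_max_left _ _) (le_max_left _ _)
      have hm2 : R₂ ≤ max (max R₁ R₂) 0 := le_trans (le_max_right _ _) (le_max_left _ _)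
      obtain ⟨a₁, h4, h5, h6⟩ := hext a (a1 a' u) (by linarith [ha' u])
      have h7 : ∀ v, max (max R₁ R₂) 0 ≤ a1 a₁ v := by
        intro v
        by_cases hv : v = u
        · rw [hv]
          linarith [ha' u]
        · have h8 := abs_le.1 (h4 v hv)
          linarith [h8.2, ha v]
      have h8 : ∀ v, v ∉ T → |a1 a₁ v - a1 a' v| ≤ C + C₀ := by
        intro v hv
        by_cases hvu : v = u
        · rw [hvu, abs_le]
          have h9 : 0 ≤ C := le_trans (abs_nonneg _) (haa i hi)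
          constructor <;> linarith
        · have h9 := haa v fun hc => (Finset.mem_cons.1 hc).elim hvu hv
          have h10 := h4 v hvu
          have h11 := abs_sub_le (a1 a₁ v) (a1 a v) (a1 a' v)
          rw [abs_sub_comm (a1 a₁ v) (a1 a v)] at h11
          linarith
      have h9 := h1 a₁ a' (fun v => le_trans hm1 (h7 v)) (fun v => by linarith [ha' v]) h8
      have h10 := h2 a (fun v => by linarith [ha v]) i hiu
      have h11 := h2 a₁ (fun v => le_trans hm2 (h7 v)) i hiu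
      have h12 := h3 a a₁ h4 i hiu
      have h13 := abs_sub_le (b1 (r' a) i) (b1 (q u a) i) (b1 (q u a₁) i)
      have h14 := abs_sub_le (b1 (r' a) i) (b1 (q u a₁) i) (b1 (r' a₁) i)
      have h15 := abs_sub_le (b1 (r' a) i) (b1 (r' a₁) i) (b1 (r' a') i)
      rw [abs_sub_comm (b1 (q u a₁) i) (b1 (r' a₁) i)] at h14
      linarith
  obtain ⟨R, D, h1⟩ := key (Finset.univ.erase i) (by simp) C
  refine ⟨R, D, fun a a' ha ha' haa => h1 a a' ha ha' fun v hv => ?_⟩
  have h2 : v = i := by simpa using hv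
  rw [h2]
  exact haa

/-- The size map gap by gap. -/
theorem exists_gap [Fintype I] [DecidableEq I] {p : A → B → ℝ} {a1 : A → I → ℝ} {b1 : B → I → ℝ}
    {θ : I → A → Set B → ℝ} {θ' : I → B → Set A → ℝ} {q : I → A → B} {q' : I → B → A} {r' : A → B} (hp : DS p)
    (h : Nodes p a1 b1 θ q q') (h' : Nodes (fun b a => p a b) b1 a1 θ' q' q)
    (hr : BiLoc (fun b a => p a b) b1 a1 r') :
    ∃ f : I → ℝ → ℝ, ∃ R C : ℝ, ∀ a, (∀ v, R ≤ a1 a v) → ∀ i, |b1 (r' a) i - f i (a1 a i)| ≤ C := by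
  classical
  have h1 : ∀ i, ∃ R D : ℝ, ∀ a a', (∀ v, R ≤ a1 a v) → (∀ v, R ≤ a1 a' v) → |a1 a i - a1 a' i| ≤ 0 →
      |b1 (r' a) i - b1 (r' a') i| ≤ D := fun i => gapwise hp h h' hr i 0
  choose R D hD using h1
  set R₀ := ∑ i, |R i| with hR₀
  have hR : ∀ i, R i ≤ R₀ := fun i => le_trans (le_abs_self _)
    (Finset.single_le_sum (f := fun v => |R v|) (fun v _ => abs_nonneg _) (Finset.mem_univ i))
  refine ⟨fun i t => if ht : ∃ a, (∀ v, R₀ ≤ a1 a v) ∧ a1 a i = t then b1 (r' ht.choose) i else 0, R₀,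
    ∑ i, |D i|, fun a ha i => ?_⟩
  have ht : ∃ a', (∀ v, R₀ ≤ a1 a' v) ∧ a1 a' i = a1 a i := ⟨a, ha, rfl⟩
  simp only [dif_pos ht]
  refine le_trans (hD i a ht.choose (fun v => le_trans (hR i) (ha v))
    (fun v => le_trans (hR i) (ht.choose_spec.1 v)) ?_) ?_
  · rw [ht.choose_spec.2]
    simp
  · exact le_trans (le_abs_self _)
      (Finset.single_le_sum (f := fun v => |D v|) (fun v _ => abs_nonneg _) (Finset.mem_univ i))

end Pool.Agent.Helper85.KL
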