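import Mathlib

/-!
# Project FQ (MP_0f6f3f_an): masses of sets for probability weights, finitely additive probabilities

`mass w S` is the sum of `w` over `S`; `PW w`: nonnegative weights with sum one; `FProb m`: a finitely
additive probability on all subsets.
-/

set_option autoImplicit false

namespace Pool.Agent.Helper85.KL

open Set

/-- Mass of a set for weights. -/
noncomputable def mass {A : Type} (w : A → ℝ) (S : Set A) : ℝ := ∑' a, S.indicator w a

/-- Probability weights. -/
structure PW {A : Type} (w : A → ℝ) : Prop where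
  nn : ∀ a, 0 ≤ w a
  sum : HasSum w 1

/-- Finitely additive probability. -/
structure FProb {B : Type} (m : Set B → ℝ) : Prop where
  empty : m ∅ = 0
  univ : m univ = 1
  mono : ∀ s t, s ⊆ t → m s ≤ m t
  sub : ∀ s t, m (s ∪ t) ≤ m s + m t

namespace PW

variable {A : Type} {w : A → ℝ}

theorem summ (h : PW w) (S : Set A) : Summable (S.indicator w) :=
  h.sum.summable.indicator S

theorem mass_nn (h : PW w) (S : Set A) : 0 ≤ mass w S :=
  tsum_nonneg fun a => indicator_nonneg (fun a _ => h.nn a) a

theorem mass_mono (h : PW w) {S T : Set A} (hST : S ⊆ T) : mass w S ≤ mass w T :=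
  (h.summ S).tsum_le_tsum (fun a => indicator_le_indicator_of_subset hST h.nn a) (h.summ T)

theorem mass_univ (h : PW w) : mass w univ = 1 := by
  unfold mass
  rw [indicator_univ]
  exact h.sum.tsum_eq

theorem mass_empty : mass w ∅ = 0 := by
  unfold mass
  simp

theorem mass_union (h : PW w) (S T : Set A) : mass w (S ∪ T) ≤ mass w S + mass w T := by
  unfold mass
  rw [← (h.summ S).tsum_add (h.summ T)]
  refine (h.summ _).tsum_le_tsum (fun a => ?_) ((h.summ S).add (h.summ T))
  have h1 := h.nn a
  by_cases h2 : a ∈ S <;> by_cases h3 : a ∈ T <;> simp [indicator, h2, h3, h1]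

theorem mass_le_one (h : PW w) (S : Set A) : mass w S ≤ 1 := by
  rw [← h.mass_univ]
  exact h.mass_mono (subset_univ S)

/-- Markov. -/
theorem markov (h : PW w) {f : A → ℝ} (h0 : ∀ a, 0 ≤ f a) (h1 : ∀ a, f a ≤ 1) {η e : ℝ} (hη : 0 < η)
    (he : ∑' a, w a * f a ≤ e) : mass w {a | η < f a} ≤ e / η := by
  have hs : Summable fun a => w a * f a :=
    Summable.of_nonneg_of_le (fun a => mul_nonneg (h.nn a) (h0 a))
      (fun a => mul_le_of_le_one_right (h.nn a) (h1 a)) h.sum.summable
  rw [le_div_iff₀ hη]
  refine le_trans ?_ he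
  unfold mass
  rw [← tsum_mul_right]
  refine ((h.summ _).mul_right η).tsum_le_tsum (fun a => ?_) hs
  by_cases h2 : a ∈ {a | η < f a}
  · rw [indicator_of_mem h2]
    exact mul_le_mul_of_nonneg_left (le_of_lt h2) (h.nn a)
  · rw [indicator_of_notMem h2, zero_mul]
    exact mul_nonneg (h.nn a) (h0 a)

/-- A set which is heavier than another one is not contained in it. -/
theorem exists_not (h : PW w) {S T : Set A} (hlt : mass w T < mass w S) : ∃ a ∈ S, a ∉ T := by
  by_contra hc
  push Not at hc
  exact absurd (h.mass_mono hc) (not_le.2 hlt)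

theorem mass_compl_ge (h : PW w) (S : Set A) : 1 ≤ mass w S + mass w Sᶜ := by
  have h1 := h.mass_union S Sᶜ
  rwa [union_compl_self, h.mass_univ] at h1

/-- Two sets with small complements meet. -/
theorem exists_both (h : PW w) {S T : Set A} (hlt : mass w S + mass w T < 1) : ∃ a, a ∉ S ∧ a ∉ T := by
  by_contra hc
  push Not at hc
  have h1 : (univ : Set A) ⊆ S ∪ T := by
    intro a _
    by_cases h2 : a ∈ S
    · exact Or.inl h2
    · exact Or.inr (hc a h2)
  have h2 := h.mass_mono h1
  rw [h.mass_univ] at h2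
  have h3 := h.mass_union S T
  linarith

end PW

namespace FProb

variable {B : Type} {m : Set B → ℝ}

theorem nn (h : FProb m) (S : Set B) : 0 ≤ m S := by
  rw [← h.empty]
  exact h.mono _ _ (empty_subset S)

theorem le_one (h : FProb m) (S : Set B) : m S ≤ 1 := by
  rw [← h.univ]
  exact h.mono _ _ (subset_univ S)

theorem compl_ge (h : FProb m) (S : Set B) : 1 ≤ m S + m Sᶜ := by
  have h1 := h.sub S Sᶜ
  rwa [union_compl_self, h.univ] at h1

theorem exists_both (h : FProb m) {S T : Set B} (hlt : m S + m T < 1) : ∃ a, a ∉ S ∧ a ∉ T := by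
  by_contra hc
  push Not at hc
  have h1 : (Set.univ : Set B) ⊆ S ∪ T := by
    intro a _
    by_cases h2 : a ∈ S
    · exact Or.inl h2
    · exact Or.inr (hc a h2)
  have h2 := h.mono _ _ h1
  rw [h.univ] at h2
  have h3 := h.sub S T
  linarith

theorem exists_not (h : FProb m) {S : Set B} (hlt : m S < 1) : ∃ a, a ∉ S := by
  by_contra hc
  push Not at hc
  have h1 : (Set.univ : Set B) ⊆ S := fun a _ => hc a
  have h2 := h.mono _ _ h1
  rw [h.univ] at h2
  linarith

end FProb

end Pool.Agent.Helper85.KL
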