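import Pool.Agent.Helper85.KL.Biloc

/-!
# Project FQ (MP_0f6f3f_an): bi-localisation from the panels

Variant of `Biloc.lean` for helper17's panel form: for a node `i` the near relation `n1 f i` sees only the coordinate `i`, and `gm f i`
is the minimum of the other coordinates. No faces, no `tight`, no `ext` are needed.
-/

set_option autoImplicit false

namespace Pool.Agent.Helper85.KL

open Set

variable {A B I : Type}

/-- The coordinate `i` agrees up to `C`. -/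
def n1 (f : A → I → ℝ) (i : I) (C : ℝ) (x y : A) : Prop := |f x i - f y i| ≤ C

/-- The minimum of the coordinates different from `i`. -/
noncomputable def gm (f : A → I → ℝ) (i : I) (x : A) : ℝ := ⨅ v : {v : I // v ≠ i}, f x v

theorem near_n1 (f : A → I → ℝ) (i : I) : Near (n1 f i) where
  refl C x hC := by unfold n1; simpa using hC
  symm C x y h := by unfold n1 at h ⊢; rwa [abs_sub_comm]
  tri C D x y z h h' := by
    unfold n1 at h h' ⊢
    have h3 := abs_sub_le (f x i) (f y i) (f z i)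
    linarith
  mono C D x y hCD h := le_trans h hCD

theorem le_gm [Finite I] [Nontrivial I] {f : A → I → ℝ} {i : I} {x : A} {L : ℝ} :
    L ≤ gm f i x ↔ ∀ v, v ≠ i → L ≤ f x v := by
  obtain ⟨j, hj⟩ := exists_ne i
  have : Nonempty {v : I // v ≠ i} := ⟨⟨j, hj⟩⟩
  unfold gm
  rw [le_ciInf_iff (Set.finite_range _).bddBelow]
  exact ⟨fun h v hv => h ⟨v, hv⟩, fun h v => h v.1 v.2⟩

/-- Full localisation. -/
theorem fullP [Fintype I] [Nontrivial I] {p : A → B → ℝ} {a1 : A → I → ℝ} {b1 : B → I → ℝ} {θ : I → A → Set B → ℝ}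
    {q : I → A → B} {q' : I → B → A} (hp : DS p)
    (hk : ∀ i, Ker p (n1 a1 i) (gm a1 i) (n1 b1 i) (gm b1 i) (θ i) (q i) (q' i)) :
    ∀ ε > 0, ∃ R C : ℝ, ∀ b, (∀ i, R ≤ b1 b i) →
      mass (fun a => p a b) {a | ∃ i, C < |a1 a i - a1 (q' i b) i|} ≤ ε := by
  classical
  have key : ∀ T : Finset I, ∀ ε > 0, ∃ R C : ℝ, ∀ b, (∀ i, R ≤ b1 b i) →
      mass (fun a => p a b) {a | ∃ i, i ∈ T ∧ C < |a1 a i - a1 (q' i b) i|} ≤ ε := by
    intro T
    induction T using Finset.cons_induction with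
    | empty =>
      intro ε hε
      refine ⟨0, 0, fun b _ => ?_⟩
      have h1 : {a : A | ∃ i, i ∈ (∅ : Finset I) ∧ 0 < |a1 a i - a1 (q' i b) i|} = ∅ := by
        rw [eq_empty_iff_forall_notMem]
        rintro a ⟨i, hi, -⟩
        simp at hi
      rw [h1, PW.mass_empty]
      exact hε.le
    | cons j T hj ih =>
      intro ε hε
      obtain ⟨R₁, C₁, h1⟩ := ih (ε / 2) (by positivity)
      obtain ⟨L, C₂, h2⟩ := (hk j).loc (ε / 2) (by positivity)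
      refine ⟨max R₁ L, max C₁ C₂, fun b hb => ?_⟩
      have h3 := h1 b fun i => le_trans (le_max_left _ _) (hb i)
      have h4 := h2 b (le_gm.2 fun v _ => le_trans (le_max_right _ _) (hb v))
      have h5 := (hp.col b).mass_union {a | ∃ i, i ∈ T ∧ C₁ < |a1 a i - a1 (q' i b) i|} {a | ¬ n1 a1 j C₂ a (q' j b)}
      refine le_trans ((hp.col b).mass_mono ?_) (by linarith : _ ≤ ε)
      rintro a ⟨i, hi, hai⟩
      rcases Finset.mem_cons.1 hi with hij | hiT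
      · refine Or.inr fun hc => ?_
        rw [hij] at hai
        exact absurd (lt_of_le_of_lt (le_max_right _ _) hai) (not_lt.2 hc)
      · exact Or.inl ⟨i, hiT, lt_of_le_of_lt (le_max_left _ _) hai⟩
  intro ε hε
  obtain ⟨R, C, h⟩ := key Finset.univ ε hε
  refine ⟨R, C, fun b hb => le_trans ((hp.col b).mass_mono ?_) (h b hb)⟩
  rintro a ⟨i, hi⟩
  exact ⟨i, Finset.mem_univ i, hi⟩

/-- Bounds for finitely many constants. -/
theorem exists_sup [Fintype I] {P : I → ℝ → Prop} (hm : ∀ i C D, C ≤ D → P i C → P i D) (h : ∀ i, ∃ C, P i C) :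
    ∃ C, ∀ i, P i C := by
  choose C hC using h
  exact ⟨∑ i, |C i|, fun i => hm i _ _ (le_trans (le_abs_self _)
    (Finset.single_le_sum (f := fun v => |C v|) (fun v _ => abs_nonneg _) (Finset.mem_univ i))) (hC i)⟩

theorem exists_rP [Fintype I] [Nontrivial I] {p : A → B → ℝ} {a1 : A → I → ℝ} {b1 : B → I → ℝ}
    {θ : I → A → Set B → ℝ} {θ' : I → B → Set A → ℝ} {q : I → A → B} {q' : I → B → A} (hp : DS p)
    (ha : ∀ a i, 0 ≤ a1 a i)
    (h : ∀ i, Ker p (n1 a1 i) (gm a1 i) (n1 b1 i) (gm b1 i) (θ i) (q i) (q' i))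
    (h' : ∀ i, Ker (fun b a => p a b) (n1 b1 i) (gm b1 i) (n1 a1 i) (gm a1 i) (θ' i) (q' i) (q i)) :
    ∃ r : B → A, BiLoc p a1 b1 r ∧ ∃ R C : ℝ, ∀ b, (∀ i, R ≤ b1 b i) → ∀ i, n1 a1 i C (r b) (q' i b) := by
  classical
  obtain ⟨R₀, C₀, h0⟩ := fullP hp h (1 / 2) (by norm_num)
  obtain ⟨i₀⟩ : Nonempty I := inferInstance
  have h1 : ∀ b, ∃ a, (∀ i, R₀ ≤ b1 b i) → ∀ i, n1 a1 i C₀ a (q' i b) := by
    intro b
    by_cases hb : ∀ i, R₀ ≤ b1 b i
    · obtain ⟨a, ha, -⟩ := (hp.col b).exists_both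
        (S := {a | ∃ i, C₀ < |a1 a i - a1 (q' i b) i|}) (T := ∅) (by
          rw [PW.mass_empty]
          linarith [h0 b hb])
      refine ⟨a, fun _ i => ?_⟩
      simp only [mem_ofPred_eq, not_exists, not_lt] at ha
      exact ha i
    · exact ⟨q' i₀ b, fun hc => absurd hc hb⟩
  choose r hr using h1
  refine ⟨r, ⟨fun ε hε => ?_, fun R => ?_, fun C => ?_⟩, R₀, C₀, hr⟩
  · obtain ⟨R₁, C₁, h2⟩ := fullP hp h ε hε
    refine ⟨max R₀ R₁, C₁ + C₀, fun b hb => ?_⟩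
    have hb0 : ∀ i, R₀ ≤ b1 b i := fun i => le_trans (le_max_left _ _) (hb i)
    refine le_trans ((hp.col b).mass_mono ?_) (h2 b fun i => le_trans (le_max_right _ _) (hb i))
    intro a ha
    by_contra hc
    simp only [mem_ofPred_eq, not_exists, not_lt] at hc
    exact ha fun i => (near_n1 a1 i).tri _ _ _ _ _ (hc i) ((near_n1 a1 i).symm _ _ _ (hr b hb0 i))
  · -- regular to regular
    by_cases hB : Nonempty B
    swap
    · exact ⟨0, fun b => absurd ⟨b⟩ hB⟩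
    obtain ⟨b₀⟩ := hB
    have h2 : ∃ R' : ℝ, ∀ i, ∀ b, (∀ v, R₀ ≤ b1 b v) → R' ≤ b1 b i → R ≤ a1 (r b) i := by
      refine exists_sup (fun i C D hCD h b hb hb' => h b hb (le_trans hCD hb')) fun i => ?_
      obtain ⟨D, hD⟩ := (h i).lip (|R| + |C₀| + |a1 (q' i b₀) i|)
      obtain ⟨C, hC⟩ := (h' i).inv
      refine ⟨|b1 (q i (q' i b₀)) i| + D + C + 1, fun b hb hb' => ?_⟩
      by_contra hc
      push Not at hc
      have h3 := abs_le.1 (hr b hb i)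
      have h4 : a1 (q' i b) i ≤ |R| + |C₀| := by linarith [h3.1, le_abs_self R, le_abs_self C₀]
      have h5 : n1 a1 i (|R| + |C₀| + |a1 (q' i b₀) i|) (q' i b) (q' i b₀) := by
        unfold n1
        rw [abs_le]
        have h6 := ha (q' i b) i
        have h7 := neg_abs_le (a1 (q' i b₀) i)
        have h8 := le_abs_self (a1 (q' i b₀) i)
        have h9 := abs_nonneg R
        have h10 := abs_nonneg C₀
        constructor <;> linarith
      have h6 := abs_le.1 (hD _ _ h5)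
      have h7 := abs_le.1 (hC b)
      have h8 := le_abs_self (b1 (q i (q' i b₀)) i)
      linarith [h6.2, h7.2]
    obtain ⟨R', hR'⟩ := h2
    exact ⟨max R₀ R', fun b hb i => hR' i b (fun j => le_trans (le_max_left _ _) (hb j))
      (le_trans (le_max_right _ _) (hb i))⟩
  · obtain ⟨D, hD⟩ := exists_sup (P := fun i D => ∀ b b', n1 b1 i C b b' → n1 a1 i D (q' i b) (q' i b'))
      (fun i D D' hDD h b b' hb => (near_n1 a1 i).mono _ _ _ _ hDD (h b b' hb)) fun i => (h' i).lip C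
    refine ⟨R₀, C₀ + D + C₀, fun b b' hb hb' hbb i => ?_⟩
    exact (near_n1 a1 i).tri _ _ _ _ _ ((near_n1 a1 i).tri _ _ _ _ _ (hr b hb i) (hD i b b' (hbb i)))
      ((near_n1 a1 i).symm _ _ _ (hr b' hb' i))

/-- Inverse maps, panel form. -/
theorem invP [Fintype I] {p : A → B → ℝ} {a1 : A → I → ℝ} {b1 : B → I → ℝ}
    {θ : I → A → Set B → ℝ} {θ' : I → B → Set A → ℝ} {q : I → A → B} {q' : I → B → A}
    (h : ∀ i, Ker p (n1 a1 i) (gm a1 i) (n1 b1 i) (gm b1 i) (θ i) (q i) (q' i))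
    (h' : ∀ i, Ker (fun b a => p a b) (n1 b1 i) (gm b1 i) (n1 a1 i) (gm a1 i) (θ' i) (q' i) (q i))
    {r : B → A} {r' : A → B} (hr' : BiLoc (fun b a => p a b) b1 a1 r') {R₁ C₁ R₂ C₂ : ℝ}
    (h1 : ∀ b, (∀ i, R₁ ≤ b1 b i) → ∀ i, n1 a1 i C₁ (r b) (q' i b))
    (h2 : ∀ a, (∀ i, R₂ ≤ a1 a i) → ∀ i, n1 b1 i C₂ (r' a) (q i a)) :
    ∃ R C : ℝ, ∀ a, (∀ i, R ≤ a1 a i) → nf a1 C a (r (r' a)) := by
  obtain ⟨R₃, h3⟩ := hr'.reg R₁
  have key : ∃ C : ℝ, ∀ i, ∀ a, n1 a1 i C₁ (r (r' a)) (q' i (r' a)) → n1 b1 i C₂ (r' a) (q i a) →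
      n1 a1 i C a (r (r' a)) := by
    refine exists_sup (fun i C D hCD h a h4 h5 => (near_n1 a1 i).mono _ _ _ _ hCD (h a h4 h5)) fun i => ?_
    obtain ⟨D, hD⟩ := (h' i).lip C₂
    obtain ⟨C, hC⟩ := (h i).inv
    refine ⟨C + (D + C₁), fun a h4 h5 => ?_⟩
    refine (near_n1 a1 i).tri _ _ _ _ _ (hC a) ((near_n1 a1 i).symm _ _ _ ?_)
    have h6 := (near_n1 a1 i).tri _ _ _ _ _ h4 (hD _ _ h5)
    rwa [add_comm] at h6
  obtain ⟨K, hK⟩ := key
  refine ⟨max R₃ R₂, K, fun a ha i => ?_⟩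
  exact hK i a (h1 (r' a) (h3 a fun i => le_trans (le_max_left _ _) (ha i)) i)
    (h2 a (fun i => le_trans (le_max_right _ _) (ha i)) i)

/-- The size map gap by gap, panel form. -/
theorem gapP [Fintype I] {p : A → B → ℝ} {a1 : A → I → ℝ} {b1 : B → I → ℝ}
    {θ : I → A → Set B → ℝ} {q : I → A → B} {q' : I → B → A}
    (h : ∀ i, Ker p (n1 a1 i) (gm a1 i) (n1 b1 i) (gm b1 i) (θ i) (q i) (q' i))
    {r' : A → B} {R₂ C₂ : ℝ} (h2 : ∀ a, (∀ i, R₂ ≤ a1 a i) → ∀ i, n1 b1 i C₂ (r' a) (q i a)) :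
    ∃ f : I → ℝ → ℝ, ∃ R C : ℝ, ∀ a, (∀ v, R ≤ a1 a v) → ∀ i, |b1 (r' a) i - f i (a1 a i)| ≤ C := by
  classical
  obtain ⟨D, hD⟩ := exists_sup (P := fun i D => ∀ a a', n1 a1 i 0 a a' → n1 b1 i D (q i a) (q i a'))
    (fun i D D' hDD h b b' hb => (near_n1 b1 i).mono _ _ _ _ hDD (h b b' hb)) fun i => (h i).lip 0
  refine ⟨fun i t => if ht : ∃ a, a1 a i = t then b1 (q i ht.choose) i else 0, R₂, C₂ + D, fun a ha i => ?_⟩
  have ht : ∃ a', a1 a' i = a1 a i := ⟨a, rfl⟩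
  simp only [dif_pos ht]
  have h3 : n1 a1 i 0 a ht.choose := by
    unfold n1
    rw [ht.choose_spec]
    simp
  exact (near_n1 b1 i).tri _ _ _ _ _ (h2 a ha i) (hD i _ _ h3)

/-- **Bi-localisation, panel form.** -/
theorem exists_bilocP [Fintype I] [Nontrivial I] {p : A → B → ℝ} {a1 : A → I → ℝ} {b1 : B → I → ℝ}
    {θ : I → A → Set B → ℝ} {θ' : I → B → Set A → ℝ} {q : I → A → B} {q' : I → B → A} (hp : DS p)
    (ha : ∀ a i, 0 ≤ a1 a i) (hb : ∀ b i, 0 ≤ b1 b i)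
    (h : ∀ i, Ker p (n1 a1 i) (gm a1 i) (n1 b1 i) (gm b1 i) (θ i) (q i) (q' i))
    (h' : ∀ i, Ker (fun b a => p a b) (n1 b1 i) (gm b1 i) (n1 a1 i) (gm a1 i) (θ' i) (q' i) (q i)) :
    ∃ (r : B → A) (r' : A → B), BiLoc p a1 b1 r ∧ BiLoc (fun b a => p a b) b1 a1 r' ∧
      (∃ R C : ℝ, ∀ a, (∀ i, R ≤ a1 a i) → nf a1 C a (r (r' a))) ∧
      (∃ R C : ℝ, ∀ b, (∀ i, R ≤ b1 b i) → nf b1 C b (r' (r b))) ∧
      (∃ f : I → ℝ → ℝ, ∃ R C : ℝ, ∀ a, (∀ v, R ≤ a1 a v) → ∀ i, |b1 (r' a) i - f i (a1 a i)| ≤ C) ∧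
      ∃ f : I → ℝ → ℝ, ∃ R C : ℝ, ∀ b, (∀ v, R ≤ b1 b v) → ∀ i, |a1 (r b) i - f i (b1 b i)| ≤ C := by
  have hp' : DS fun b a => p a b := ⟨hp.col, hp.row⟩
  obtain ⟨r, hr, R₁, C₁, h1⟩ := exists_rP hp ha h h'
  obtain ⟨r', hr', R₂, C₂, h2⟩ := exists_rP hp' hb h' h
  exact ⟨r, r', hr, hr', invP h h' hr' h1 h2, invP h' h hr h2 h1, gapP h h2, gapP h' h1⟩

end Pool.Agent.Helper85.KL
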